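import Pool.Agent.Helper12_UBI.Root

/-!
Approximate units of all levels give a unit; the local theorem.
-/

open Polynomial

namespace H12UBI

open H58UB

section artin

open Pointwise

theorem exists_div {V : Type*} [CommRing V] [IsDomain V] [IsNoetherianRing V] (π : V)
    {M : Type*} [AddCommGroup M] [Module V M] {ι : Type*} [Finite ι]
    (Φ : M →ₗ[V] (ι → V)) (hΦ : Function.Injective Φ) :
    ∃ T : ℕ, ∀ w, (∀ i, π ^ T ∣ Φ w i) → ∃ w', w = π • w' := by
  obtain ⟨k, hk⟩ := Ideal.exists_pow_inf_eq_pow_smul (Ideal.span {π}) (LinearMap.range Φ)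
  refine ⟨k + 1, fun w hw => ?_⟩
  have h1 := hk (k + 1) (Nat.le_succ k)
  have h2 : k + 1 - k = 1 := by omega
  rw [h2, pow_one] at h1
  have h3 : Φ w ∈ (Ideal.span {π}) ^ (k + 1) • (⊤ : Submodule V (ι → V)) ⊓ LinearMap.range Φ := by
    refine ⟨?_, LinearMap.mem_range_self Φ w⟩
    rw [Ideal.span_singleton_pow, Submodule.ideal_span_singleton_smul]
    choose y hy using hw
    refine (Submodule.mem_smul_pointwise_iff_exists _ _ _).2 ⟨y, Submodule.mem_top, ?_⟩
    funext i
    rw [Pi.smul_apply, smul_eq_mul, ← hy]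
  rw [h1, Submodule.ideal_span_singleton_smul] at h3
  obtain ⟨b, hb, hbw⟩ := (Submodule.mem_smul_pointwise_iff_exists _ _ _).1 h3
  obtain ⟨w', rfl⟩ := hb.2
  refine ⟨w', hΦ ?_⟩
  rw [map_smul, hbw]

end artin

section dvr

variable {V : Type*} [CommRing V] [IsDomain V] [IsDiscreteValuationRing V] {g : ℕ} {h r : V[X]}

/-- the coefficients at infinity -/
noncomputable def Phi {A : Type*} [CommRing A] {h r : A[X]} (S : Shape g h r) (n : ℕ) :
    (degreeLT A (n + 1) × degreeLT A (n - g)) →ₗ[A] (Fin (2 * n) → A) where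
  toFun p i := (ex A p.1.1 + ex A p.2.1 * y0 S).coeff ((i : ℕ) - (n : ℤ))
  map_add' := by
    intro p q
    funext i
    simp only [Prod.fst_add, Prod.snd_add, Submodule.coe_add, map_add, Pi.add_apply, add_mul,
      HahnSeries.coeff_add]
    ring
  map_smul' := by
    intro c p
    funext i
    simp only [Prod.smul_fst, Prod.smul_snd, Submodule.coe_smul, smul_eq_C_mul, map_mul,
      ex_C, mul_assoc, HahnSeries.coeff_add, coeff_C_mul',
      Pi.smul_apply, smul_eq_mul, RingHom.id_apply]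
    ring

theorem mem_degreeLT_of {A : Type*} [CommRing A] {p : A[X]} {n : ℕ} (hp : ∀ j, n ≤ j → p.coeff j = 0) :
    p ∈ degreeLT A n := by
  rw [mem_degreeLT, degree_lt_iff_coeff_zero]
  exact hp

theorem U_of_lev {S : Shape g h r} {π : V} (hπ : Irreducible π) {n : ℕ}
    (hw : ∀ t, ∃ w, Lev π t S n w) : U S n := by
  by_contra hU
  have hinj : Function.Injective (Phi S n) := by
    rw [injective_iff_map_eq_zero]
    intro p hp
    by_contra hp0
    apply hU
    have hfn : Fn S n (⟨p.1.1, p.2.1⟩ : CR V h r) := by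
      refine fn_of_deg S ?_ ?_
      · have h1 := mem_degreeLT.1 p.1.2
        rw [degree_lt_iff_coeff_zero] at h1
        exact natDegree_le_iff_coeff_eq_zero.2 fun j hj => h1 j hj
      · intro j hj
        have h1 := mem_degreeLT.1 p.2.2
        rw [degree_lt_iff_coeff_zero] at h1
        exact h1 j (by omega)
    refine ⟨⟨p.1.1, p.2.1⟩, ?_, ?_, hfn.2⟩
    · intro h0
      apply hp0
      have h1 := congrArg QuadraticAlgebra.re h0
      have h2 := congrArg QuadraticAlgebra.im h0
      exact Prod.ext (Subtype.ext h1) (Subtype.ext h2)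
    · intro j hj
      by_cases hj2 : j < -(n : ℤ)
      · exact hfn.1 j hj2
      · push Not at hj2
        have h1 := congrFun hp ⟨(j + (n : ℤ)).toNat, by omega⟩
        change (ex V p.1.1 + ex V p.2.1 * y0 S).coeff
          (((j + (n : ℤ)).toNat : ℕ) - (n : ℤ)) = 0 at h1
        have h3 : ((((j + (n : ℤ)).toNat : ℕ) : ℤ) - (n : ℤ)) = j := by omega
        rw [h3] at h1
        exact h1
  obtain ⟨T, hT⟩ := exists_div π (Phi S n) hinj
  obtain ⟨w, hw⟩ := hw T
  have hre := fn_re hw.fn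
  have him := fn_im hw.fn
  let p : degreeLT V (n + 1) × degreeLT V (n - g) :=
    (⟨w.re, mem_degreeLT_of fun j hj => coeff_eq_zero_of_natDegree_lt (by omega)⟩,
      ⟨w.im, mem_degreeLT_of fun j hj => him j (by omega)⟩)
  obtain ⟨p', hp'⟩ := hT p (by
    intro i
    exact hw.d _ (by have := i.2; omega))
  apply hw.ne
  have h1 : w.re = π • p'.1.1 := congrArg (fun x => x.1.1) hp'
  have h2 : w.im = π • p'.2.1 := congrArg (fun x => x.2.1) hp'
  have hπ0 : (IsLocalRing.residue V) π = 0 := (residue_eq_zero_iff' hπ π).2 dvd_rfl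
  refine QuadraticAlgebra.ext ?_ ?_
  · rw [cmap_re, h1, smul_eq_C_mul, Polynomial.map_mul, Polynomial.map_C, hπ0, map_zero,
      zero_mul]
    rfl
  · rw [cmap_im, h2, smul_eq_C_mul, Polynomial.map_mul, Polynomial.map_C, hπ0, map_zero,
      zero_mul]
    rfl

/-- primitive element -/
theorem exists_primitive {S : Shape g h r} {π : V} (hπ : Irreducible π) {n : ℕ} (hU : U S n) :
    ∃ u : CR V h r, cmap (IsLocalRing.residue V) h r u ≠ 0 ∧ Ge (n : ℤ) (e0 S u) ∧ Ge (-(n : ℤ)) (e1 S u) := by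
  obtain ⟨u, hu, hu0, hu1⟩ := hU
  -- some coefficient is nonzero; bound the exponent of `π`
  have hc : ∃ c : V, c ≠ 0 ∧ ∀ (m : ℕ) (z : CR V h r), u = cst h r (π ^ m) * z → π ^ m ∣ c := by
    by_cases hre : u.re = 0
    · have him : u.im ≠ 0 := fun h0 => hu (QuadraticAlgebra.ext hre h0)
      refine ⟨u.im.leadingCoeff, leadingCoeff_ne_zero.2 him, ?_⟩
      intro m z hz
      rw [leadingCoeff]
      have := congrArg QuadraticAlgebra.im hz
      rw [QuadraticAlgebra.im_mul, cst_re, cst_im] at this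
      simp only [zero_mul, mul_zero, add_zero] at this
      have h2 := congrArg (fun q => q.coeff u.im.natDegree) this
      simp only [coeff_C_mul] at h2
      rw [h2]
      exact Dvd.intro _ rfl
    · refine ⟨u.re.leadingCoeff, leadingCoeff_ne_zero.2 hre, ?_⟩
      intro m z hz
      rw [leadingCoeff]
      have := congrArg QuadraticAlgebra.re hz
      rw [QuadraticAlgebra.re_mul, cst_re, cst_im] at this
      simp only [zero_mul, mul_zero, add_zero] at this
      have h2 := congrArg (fun q => q.coeff u.re.natDegree) this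
      simp only [coeff_C_mul] at h2
      rw [h2]
      exact Dvd.intro _ rfl
  obtain ⟨c, hc, hcd⟩ := hc
  have hfin : ∃ m : ℕ, ¬ π ^ m ∣ c := by
    have := FiniteMultiplicity.of_not_isUnit hπ.not_isUnit hc
    obtain ⟨m, hm⟩ := this
    exact ⟨m + 1, hm⟩
  obtain ⟨m, hm⟩ := hfin
  have hex : ∃ m : ℕ, ¬ ∃ z, u = cst h r (π ^ m) * z := by
    refine ⟨m, ?_⟩
    rintro ⟨z, hz⟩
    exact hm (hcd m z hz)
  classical
  have hmin := Nat.find_spec hex
  set M := Nat.find hex with hM
  have hM0 : M ≠ 0 := by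
    intro h0
    rw [h0] at hmin
    exact hmin ⟨u, by rw [pow_zero, map_one, one_mul]⟩
  obtain ⟨M', hM'⟩ : ∃ M', M = M' + 1 := ⟨M - 1, by omega⟩
  have h1 := Nat.find_min hex (m := M') (by omega)
  push Not at h1
  obtain ⟨z, hz⟩ := h1
  refine ⟨z, ?_, ?_, ?_⟩
  · intro h0
    obtain ⟨z', rfl⟩ := exists_of_cmap_zero hπ h0
    exact hmin ⟨z', by rw [hz, hM', pow_succ, map_mul (cst h r) (π ^ M') π, mul_assoc]⟩
  · rw [hz, map_mul, e0_cst] at hu0
    exact ge_of_C_mul (pow_ne_zero M' hπ.ne_zero) hu0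
  · rw [hz, map_mul, e1_cst] at hu1
    exact ge_of_C_mul (pow_ne_zero M' hπ.ne_zero) hu1

end dvr

end H12UBI
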