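import Pool.Agent.Helper12_UBI.Lev

/-!
Functoriality of the orders: injective maps, fraction fields, field extensions, scaling.
-/

open Polynomial

namespace H12UBI

open H58UB

section map

variable {A B : Type*} [CommRing A] [CommRing B] [Nontrivial B] {g : ℕ} {h r : A[X]}

theorem U.map {S : Shape g h r} {n : ℕ} (φ : A →+* B) (hφ : Function.Injective φ) (hU : U S n) :
    U (smap S φ) n := by
  obtain ⟨u, hu, h0, h1⟩ := hU
  refine ⟨cmap φ h r u, ?_, ?_, ?_⟩
  · intro h
    apply hu
    apply cmap_injective φ hφ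
    rw [h, map_zero]
  · rw [← lmap_e0 S]; exact ge_lmap h0 _
  · rw [← lmap_e1 S]; exact ge_lmap h1 _

end map

section frac

variable {V E : Type*} [CommRing V] [IsDomain V] [Field E] [Algebra V E] [IsFractionRing V E]
  {g : ℕ} {h r : V[X]}

theorem U.of_frac {S : Shape g h r} {n : ℕ} (hU : U (smap S (algebraMap V E)) n) : U S n := by
  obtain ⟨u, hu, h0, h1⟩ := hU
  classical
  obtain ⟨d, hd⟩ := IsLocalization.exist_integer_multiples_of_finset (nonZeroDivisors V)
    (u.re.support.image u.re.coeff ∪ u.im.support.image u.im.coeff)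
  have hd0 : algebraMap V E (d : V) ≠ 0 := by
    rw [Ne, map_eq_zero_iff _ (IsFractionRing.injective V E)]
    exact nonZeroDivisors.ne_zero d.2
  have hlift : ∀ p : E[X], (∀ j, IsLocalization.IsInteger V ((d : V) • p.coeff j)) →
      ∃ q : V[X], q.map (algebraMap V E) = C (algebraMap V E (d : V)) * p := by
    intro p hp
    refine (Polynomial.mem_lifts _).1 ((Polynomial.lifts_iff_coeff_lifts _).2 fun j => ?_)
    obtain ⟨b, hb⟩ := hp j
    refine ⟨b, ?_⟩
    rw [hb, coeff_C_mul, Algebra.smul_def]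
  have hre : ∀ j, IsLocalization.IsInteger V ((d : V) • u.re.coeff j) := by
    intro j
    by_cases hj : u.re.coeff j = 0
    · rw [hj, smul_zero]; exact IsLocalization.isInteger_zero
    · exact hd _ (Finset.mem_union_left _ (Finset.mem_image_of_mem _ (mem_support_iff.2 hj)))
  have him : ∀ j, IsLocalization.IsInteger V ((d : V) • u.im.coeff j) := by
    intro j
    by_cases hj : u.im.coeff j = 0
    · rw [hj, smul_zero]; exact IsLocalization.isInteger_zero
    · exact hd _ (Finset.mem_union_right _ (Finset.mem_image_of_mem _ (mem_support_iff.2 hj)))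
  obtain ⟨a, ha⟩ := hlift _ hre
  obtain ⟨b, hb⟩ := hlift _ him
  have hab : cmap (algebraMap V E) h r (⟨a, b⟩ : CR V h r) =
      cst _ _ (algebraMap V E (d : V)) * u := by
    refine QuadraticAlgebra.ext ?_ ?_
    · rw [cmap_re, QuadraticAlgebra.re_mul, cst_re, cst_im]
      linear_combination ha
    · rw [cmap_im, QuadraticAlgebra.im_mul, cst_re, cst_im]
      linear_combination hb
  have hinj : ∀ {m : ℤ} {s : LaurentSeries V}, Ge m (lmap (algebraMap V E) s) → Ge m s := by
    intro m s hs j hj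
    have := hs j hj
    rw [coeff_lmap, map_eq_zero_iff _ (IsFractionRing.injective V E)] at this
    exact this
  refine ⟨⟨a, b⟩, ?_, ?_, ?_⟩
  · intro h0
    apply hu
    rw [h0, map_zero] at hab
    have h1 := congrArg QuadraticAlgebra.re hab
    have h2 := congrArg QuadraticAlgebra.im hab
    rw [QuadraticAlgebra.re_mul, cst_re, cst_im] at h1
    rw [QuadraticAlgebra.im_mul, cst_re, cst_im] at h2
    simp only [zero_mul, mul_zero, add_zero, QuadraticAlgebra.re_zero,
      QuadraticAlgebra.im_zero] at h1 h2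
    refine QuadraticAlgebra.ext ?_ ?_
    · exact (mul_eq_zero.1 h1.symm).resolve_left (C_ne_zero.2 hd0)
    · exact (mul_eq_zero.1 h2.symm).resolve_left (C_ne_zero.2 hd0)
  · apply hinj
    rw [lmap_e0 S, hab, map_mul, e0_cst]
    exact ge_C_mul h0 _
  · apply hinj
    rw [lmap_e1 S, hab, map_mul, e1_cst]
    exact ge_C_mul h1 _

end frac

section ext

variable {K L : Type*} [Field K] [Field L] [Algebra K L] {g : ℕ} {h r : K[X]}

/-- coefficientwise application of a linear functional -/
noncomputable def lap (f : L →ₗ[K] K) (s : LaurentSeries L) : LaurentSeries K where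
  coeff j := f (s.coeff j)
  isPWO_support' := s.isPWO_support.mono (by
    intro j hj h0
    apply hj
    change f (s.coeff j) = 0
    rw [h0, map_zero])

@[simp] theorem coeff_lap (f : L →ₗ[K] K) (s : LaurentSeries L) (j : ℤ) :
    (lap f s).coeff j = f (s.coeff j) := rfl

theorem lap_add (f : L →ₗ[K] K) (s t : LaurentSeries L) : lap f (s + t) = lap f s + lap f t := by
  ext j
  simp

theorem lap_mul (f : L →ₗ[K] K) (s : LaurentSeries L) (t : LaurentSeries K) :
    lap f (s * lmap (algebraMap K L) t) = lap f s * t := by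
  ext j
  rw [coeff_lap]
  rw [HahnSeries.coeff_mul_right' (s := t.support) t.isPWO_support (by
    intro i hi h0
    apply hi
    rw [coeff_lmap, h0, map_zero])]
  rw [HahnSeries.coeff_mul_left' (s := s.support) s.isPWO_support (by
    intro i hi h0
    apply hi
    rw [coeff_lap, h0, map_zero])]
  rw [map_sum]
  refine Finset.sum_congr rfl fun ij _ => ?_
  rw [coeff_lmap, coeff_lap, mul_comm, ← Algebra.smul_def, map_smul, smul_eq_mul, mul_comm]

theorem ge_lap (f : L →ₗ[K] K) {n : ℤ} {s : LaurentSeries L} (hs : Ge n s) : Ge n (lap f s) := by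
  intro j hj
  rw [coeff_lap, hs j hj, map_zero]

/-- coefficientwise application to polynomials -/
noncomputable def pap (f : L →ₗ[K] K) (p : L[X]) : K[X] :=
  ∑ i ∈ Finset.range (p.natDegree + 1), monomial i (f (p.coeff i))

theorem coeff_pap (f : L →ₗ[K] K) (p : L[X]) (j : ℕ) : (pap f p).coeff j = f (p.coeff j) := by
  rw [pap, finsetSum_coeff]
  simp only [coeff_monomial, Finset.sum_ite_eq', Finset.mem_range]
  split_ifs with hj
  · rfl
  · rw [coeff_eq_zero_of_natDegree_lt (by omega), map_zero]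

theorem ex_pap (f : L →ₗ[K] K) (p : L[X]) : ex K (pap f p) = lap f (ex L p) := by
  ext j
  rw [coeff_lap]
  rcases lt_or_ge 0 j with hj | hj
  · rw [coeff_ex_pos _ hj, coeff_ex_pos _ hj, map_zero]
  · obtain ⟨k, rfl⟩ : ∃ k : ℕ, j = -(k : ℤ) := ⟨(-j).toNat, by omega⟩
    rw [coeff_ex_neg, coeff_ex_neg, coeff_pap]

theorem U.of_ext {S : Shape g h r} {n : ℕ} (hU : U (smap S (algebraMap K L)) n) : U S n := by
  obtain ⟨u, hu, h0, h1⟩ := hU
  have hc : ∃ c : L, c ≠ 0 ∧ ((∃ j, c = u.re.coeff j) ∨ ∃ j, c = u.im.coeff j) := by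
    by_contra hcon
    push Not at hcon
    apply hu
    refine QuadraticAlgebra.ext ?_ ?_
    · ext j
      by_contra hne
      exact (hcon _ hne).1 j rfl
    · ext j
      by_contra hne
      exact (hcon _ hne).2 j rfl
  obtain ⟨c, hc0, hc⟩ := hc
  obtain ⟨f, hf⟩ : ∃ f : L →ₗ[K] K, f c ≠ 0 := by
    by_contra hcon
    push Not at hcon
    exact hc0 ((Module.forall_dual_apply_eq_zero_iff K c).1 hcon)
  refine ⟨⟨pap f u.re, pap f u.im⟩, ?_, ?_, ?_⟩
  · intro h2
    have h3 := congrArg QuadraticAlgebra.re h2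
    have h4 := congrArg QuadraticAlgebra.im h2
    rcases hc with ⟨j, rfl⟩ | ⟨j, rfl⟩
    · apply hf
      rw [← coeff_pap]
      exact congrArg (fun q => q.coeff j) h3
    · apply hf
      rw [← coeff_pap]
      exact congrArg (fun q => q.coeff j) h4
  · have h3 : e0 S (⟨pap f u.re, pap f u.im⟩ : CR K h r) =
        lap f (e0 (smap S (algebraMap K L)) u) := by
      rw [e0_apply, e0_apply, ← lmap_y0 S, lap_add, lap_mul, ← ex_pap, ← ex_pap]
    rw [h3]
    exact ge_lap f h0
  · have h3 : e1 S (⟨pap f u.re, pap f u.im⟩ : CR K h r) =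
        lap f (e1 (smap S (algebraMap K L)) u) := by
      rw [e1_apply, e1_apply, ← lmap_y0 S, ← lmap_ex,
        ← map_neg (lmap (algebraMap K L)), ← map_sub (lmap (algebraMap K L)), lap_add, lap_mul,
        ← ex_pap, ← ex_pap]
    rw [h3]
    exact ge_lap f h1

end ext

section scale

variable {K : Type*} [Field K] {g : ℕ} {h r : K[X]}

/-- the substitution `t ↦ t / a` -/
noncomputable def tau (a : K) (s : LaurentSeries K) : LaurentSeries K where
  coeff j := a ^ (-j) * s.coeff j
  isPWO_support' := s.isPWO_support.mono (by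
    intro j hj h0
    apply hj
    change a ^ (-j) * s.coeff j = 0
    rw [h0, mul_zero])

@[simp] theorem coeff_tau (a : K) (s : LaurentSeries K) (j : ℤ) :
    (tau a s).coeff j = a ^ (-j) * s.coeff j := rfl

theorem tau_add (a : K) (s t : LaurentSeries K) : tau a (s + t) = tau a s + tau a t := by
  ext j
  simp only [coeff_tau, HahnSeries.coeff_add]
  ring

theorem tau_neg (a : K) (s : LaurentSeries K) : tau a (-s) = -tau a s := by
  ext j
  simp only [coeff_tau, HahnSeries.coeff_neg]
  ring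

theorem tau_sub (a : K) (s t : LaurentSeries K) : tau a (s - t) = tau a s - tau a t := by
  rw [sub_eq_add_neg, tau_add, tau_neg, sub_eq_add_neg]

theorem tau_mul {a : K} (ha : a ≠ 0) (s t : LaurentSeries K) :
    tau a (s * t) = tau a s * tau a t := by
  ext j
  rw [coeff_tau, HahnSeries.coeff_mul]
  rw [HahnSeries.coeff_mul_right' (s := t.support) t.isPWO_support (by
    intro i hi h0
    apply hi
    rw [coeff_tau, h0, mul_zero])]
  have h1 : (tau a s).support = s.support := by
    ext i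
    rw [HahnSeries.mem_support, HahnSeries.mem_support, coeff_tau, Ne, mul_eq_zero, not_or]
    exact ⟨fun h => h.2, fun h => ⟨zpow_ne_zero _ ha, h⟩⟩
  rw [Finset.mul_sum]
  refine Finset.sum_congr ?_ fun ij hij => ?_
  · ext ij
    rw [Finset.mem_antidiagonal, Finset.mem_antidiagonal, h1]
  · have h2 := (Finset.mem_antidiagonal.1 hij).2.2
    rw [coeff_tau, coeff_tau, ← h2, neg_add, zpow_add₀ ha]
    ring

theorem ge_tau {a : K} {n : ℤ} {s : LaurentSeries K} (hs : Ge n s) : Ge n (tau a s) := by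
  intro j hj
  rw [coeff_tau, hs j hj, mul_zero]

/-- weighted scaling of a polynomial -/
noncomputable def wsc (m : ℕ) (a : K) (p : K[X]) : K[X] := C ((a ^ m)⁻¹) * p.comp (C a * X)

theorem coeff_wsc (m : ℕ) (a : K) (p : K[X]) (j : ℕ) :
    (wsc m a p).coeff j = (a ^ m)⁻¹ * (p.coeff j * a ^ j) := by
  rw [wsc, coeff_C_mul, comp_C_mul_X_coeff]

theorem wsc_wsc (m : ℕ) {a : K} (ha : a ≠ 0) (p : K[X]) : wsc m a⁻¹ (wsc m a p) = p := by
  ext j
  rw [coeff_wsc, coeff_wsc]
  have h1 := pow_ne_zero m ha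
  have h2 := pow_ne_zero j ha
  rw [inv_pow, inv_pow, inv_inv]
  field_simp

theorem wsc_shape (S : Shape g h r) {a : K} (ha : a ≠ 0) :
    Shape g (wsc (g + 1) a h) (wsc (2 * g + 2) a r) := by
  have h1 : (wsc (g + 1) a h).coeff (g + 1) = 1 := by
    rw [coeff_wsc]
    have h2 : h.coeff (g + 1) = 1 := by
      have := S.monic
      rw [Monic, leadingCoeff, S.deg] at this
      exact this
    rw [h2, one_mul, inv_mul_cancel₀ (pow_ne_zero _ ha)]
  have h2 : (wsc (g + 1) a h).natDegree ≤ g + 1 := by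
    rw [natDegree_le_iff_coeff_eq_zero]
    intro j hj
    rw [coeff_wsc, coeff_eq_zero_of_natDegree_lt (by rw [S.deg]; exact hj)]
    simp
  have h3 : (wsc (g + 1) a h).natDegree = g + 1 :=
    le_antisymm h2 (le_natDegree_of_ne_zero (by rw [h1]; exact one_ne_zero))
  refine ⟨?_, h3, ?_⟩
  · rw [Monic, leadingCoeff, h3, h1]
  · rw [natDegree_le_iff_coeff_eq_zero]
    intro j hj
    have := S.degr
    rw [coeff_wsc, coeff_eq_zero_of_natDegree_lt (lt_of_le_of_lt this hj)]
    simp

theorem ex_comp {a : K} (ha : a ≠ 0) (p : K[X]) : ex K (p.comp (C a * X)) = tau a (ex K p) := by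
  ext j
  rw [coeff_tau]
  rcases lt_or_ge 0 j with hj | hj
  · rw [coeff_ex_pos _ hj, coeff_ex_pos _ hj, mul_zero]
  · obtain ⟨k, rfl⟩ : ∃ k : ℕ, j = -(k : ℤ) := ⟨(-j).toNat, by omega⟩
    rw [coeff_ex_neg, coeff_ex_neg, comp_C_mul_X_coeff, neg_neg, zpow_natCast, mul_comm]

theorem tau_C_mul (a c : K) (s : LaurentSeries K) :
    tau a (HahnSeries.C c * s) = HahnSeries.C c * tau a s := by
  ext j
  rw [coeff_tau, coeff_C_mul', coeff_C_mul', coeff_tau]
  ring

theorem y0_wsc (S : Shape g h r) {a : K} (ha : a ≠ 0) :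
    y0 (wsc_shape S ha) = HahnSeries.C ((a ^ (g + 1))⁻¹) * tau a (y0 S) := by
  refine unique_y0 (wsc_shape S ha) (ge_y0 _) (ge_C_mul (ge_tau (ge_y0 S)) _) (y0_eq _) ?_
  have h1 := congrArg (tau a) (y0_eq S)
  rw [tau_add, tau_mul ha, pow_two, tau_mul ha] at h1
  rw [wsc, wsc, map_mul, map_mul, ex_comp ha, ex_comp ha, ex_C, ex_C, ← h1]
  have h2 : HahnSeries.C ((a ^ (2 * g + 2))⁻¹) =
      HahnSeries.C ((a ^ (g + 1))⁻¹) * (HahnSeries.C ((a ^ (g + 1))⁻¹) : LaurentSeries K) := by
    rw [← map_mul, ← mul_inv, ← pow_add]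
    congr 3
    omega
  rw [h2]
  ring

theorem U.wsc {S : Shape g h r} {n : ℕ} (hU : U S n) {a : K} (ha : a ≠ 0) :
    U (wsc_shape S ha) n := by
  obtain ⟨u, hu, h0, h1⟩ := hU
  let u' : CR K (H12UBI.wsc (g + 1) a h) (H12UBI.wsc (2 * g + 2) a r) :=
    ⟨u.re.comp (C a * X), C (a ^ (g + 1)) * u.im.comp (C a * X)⟩
  have hCC : HahnSeries.C (a ^ (g + 1)) * HahnSeries.C ((a ^ (g + 1))⁻¹) =
      (1 : LaurentSeries K) := by
    rw [← map_mul, mul_inv_cancel₀ (pow_ne_zero _ ha), map_one]
  have he0 : e0 (wsc_shape S ha) u' = tau a (e0 S u) := by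
    rw [e0_apply, e0_apply, y0_wsc S ha, tau_add, tau_mul ha, ← ex_comp ha, ← ex_comp ha]
    simp only [u']
    rw [map_mul, ex_C]
    linear_combination (ex K (u.im.comp (C a * X)) * tau a (y0 S)) * hCC
  have he1 : e1 (wsc_shape S ha) u' = tau a (e1 S u) := by
    rw [e1_apply, e1_apply, y0_wsc S ha, tau_add, tau_mul ha, tau_sub, tau_neg, ← ex_comp ha,
      ← ex_comp ha, ← ex_comp ha]
    simp only [u']
    rw [map_mul, H12UBI.wsc, map_mul, ex_C, ex_C]
    linear_combination (-(ex K (u.im.comp (C a * X))) *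
      (tau a (y0 S) + ex K (h.comp (C a * X)))) * hCC
  refine ⟨u', ?_, ?_, ?_⟩
  · intro h2
    have hsurj : ∀ p : K[X], p.comp (C a * X) = 0 → p = 0 := by
      intro p hp
      ext j
      have := congrArg (fun q => q.coeff j) hp
      simp only [comp_C_mul_X_coeff, coeff_zero] at this
      exact (mul_eq_zero.1 this).resolve_right (pow_ne_zero _ ha)
    apply hu
    have h3 := congrArg QuadraticAlgebra.re h2
    have h4 := congrArg QuadraticAlgebra.im h2
    refine QuadraticAlgebra.ext (hsurj _ h3) (hsurj _ ?_)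
    exact (mul_eq_zero.1 h4).resolve_left (C_ne_zero.2 (pow_ne_zero _ ha))
  · rw [he0]; exact ge_tau h0
  · rw [he1]; exact ge_tau h1

theorem U.of_wsc {S : Shape g h r} {n : ℕ} {a : K} (ha : a ≠ 0)
    (hU : U (wsc_shape S ha) n) : U S n := by
  have h1 := hU.wsc (inv_ne_zero ha)
  have h2 := wsc_wsc (g + 1) ha h
  have h3 := wsc_wsc (2 * g + 2) ha r
  obtain ⟨u, hu⟩ := h1
  revert u
  generalize_proofs pf
  revert pf
  rw [h2, h3]
  intro pf u hu
  exact ⟨u, hu⟩

end scale

end H12UBI
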