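import Pool.Agent.Helper12_UBI.Pic

/-!
The final form of the dominance condition.
-/

open Polynomial NumberField IsDedekindDomain

namespace H12UBI

open H58UB

/-- It suffices that one coefficient of `r` dominates `h`. -/
theorem dom_of {K : Type} [Field K] [NumberField K] {g : ℕ} {h r : K[X]}
    {v : HeightOneSpectrum (𝓞 K)} {i : ℕ} (hi : i ≤ g) (hri : r.coeff i ≠ 0)
    (hh : ∀ j ≤ g, v.valuation K (h.coeff j) ^ (2 * g + 2 - i) ≤
      v.valuation K (r.coeff i) ^ (g + 1 - j)) : Dom g h r v := by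
  classical
  set M := (2 * g + 2).factorial with hM
  have hM0 : M ≠ 0 := Nat.factorial_ne_zero _
  have hdvd : ∀ j ≤ g, (2 * g + 2 - j) ∣ M := by
    intro j hj
    exact Nat.dvd_factorial (by omega) (by omega)
  obtain ⟨i₀, hi₀, hmax⟩ := Finset.exists_max_image (Finset.range (g + 1))
    (fun j => v.valuation K (r.coeff j) ^ (M / (2 * g + 2 - j))) ⟨0, by simp⟩
  have hi₀g : i₀ ≤ g := by have := Finset.mem_range.1 hi₀; omega
  have key : ∀ j ≤ g, v.valuation K (r.coeff j) ^ (2 * g + 2 - i₀) ≤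
      v.valuation K (r.coeff i₀) ^ (2 * g + 2 - j) := by
    intro j hj
    have h1 := hmax j (Finset.mem_range.2 (by omega))
    have h2 := pow_le_pow_left₀ zero_le h1 ((2 * g + 2 - j) * (2 * g + 2 - i₀))
    rw [← pow_le_pow_iff_left₀ zero_le zero_le hM0]
    have h3 : (v.valuation K (r.coeff j) ^ (2 * g + 2 - i₀)) ^ M =
        (v.valuation K (r.coeff j) ^ (M / (2 * g + 2 - j))) ^
          ((2 * g + 2 - j) * (2 * g + 2 - i₀)) := by
      rw [← pow_mul, ← pow_mul, ← mul_assoc, Nat.div_mul_cancel (hdvd j hj), mul_comm]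
    have h4 : (v.valuation K (r.coeff i₀) ^ (2 * g + 2 - j)) ^ M =
        (v.valuation K (r.coeff i₀) ^ (M / (2 * g + 2 - i₀))) ^
          ((2 * g + 2 - j) * (2 * g + 2 - i₀)) := by
      rw [← pow_mul, ← pow_mul, mul_comm (2 * g + 2 - j) (2 * g + 2 - i₀), ← mul_assoc,
        Nat.div_mul_cancel (hdvd i₀ hi₀g), mul_comm]
    rw [h3, h4]
    exact h2
  refine ⟨i₀, hi₀g, ?_, key, ?_⟩
  · intro h0
    have h1 := key i hi
    rw [h0, map_zero, zero_pow (by omega), le_zero_iff, pow_eq_zero_iff (by omega),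
      Valuation.zero_iff] at h1
    exact hri h1
  · intro j hj
    rw [← pow_le_pow_iff_left₀ zero_le zero_le (show 2 * g + 2 - i ≠ 0 by omega)]
    calc (v.valuation K (h.coeff j) ^ (2 * g + 2 - i₀)) ^ (2 * g + 2 - i)
        = (v.valuation K (h.coeff j) ^ (2 * g + 2 - i)) ^ (2 * g + 2 - i₀) := by
          rw [← pow_mul, ← pow_mul, mul_comm]
      _ ≤ (v.valuation K (r.coeff i) ^ (g + 1 - j)) ^ (2 * g + 2 - i₀) :=
          pow_le_pow_left₀ zero_le (hh j hj) _
      _ = (v.valuation K (r.coeff i) ^ (2 * g + 2 - i₀)) ^ (g + 1 - j) := by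
          rw [← pow_mul, ← pow_mul, mul_comm]
      _ ≤ (v.valuation K (r.coeff i₀) ^ (2 * g + 2 - i)) ^ (g + 1 - j) :=
          pow_le_pow_left₀ zero_le (key i hi) _
      _ = (v.valuation K (r.coeff i₀) ^ (g + 1 - j)) ^ (2 * g + 2 - i) := by
          rw [← pow_mul, ← pow_mul, mul_comm]

/-- The coefficient `r_i` is nonzero and dominates `h` at the place `v`: with
`|a| = v.valuation K a`, `|h_j| ^ (2g+2-i) ≤ |r_i| ^ (g+1-j)` for all `j ≤ g`. -/
def Curve.DomAt {g : ℕ} {K : Type} [Field K] [NumberField K] (C : Curve g K)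
    (v : HeightOneSpectrum (𝓞 K)) (i : ℕ) : Prop :=
  i ≤ g ∧ C.r.coeff i ≠ 0 ∧
    ∀ j ≤ g, vabs v (C.h.coeff j) ^ (2 * g + 2 - i) ≤ vabs v (C.r.coeff i) ^ (g + 1 - j)

theorem final {K : Type} [Field K] [NumberField K] {g d p : ℕ} (hp : p.Prime)
    (hd : Module.finrank ℚ K ≤ d) (C : Curve g K) {v : HeightOneSpectrum (𝓞 K)}
    (hv : ((p : ℕ) : 𝓞 K) ∈ v.asIdeal) (i : ℕ) (hD : C.DomAt v i) :
    orderOf C.infty ≤ 2 * (d * (2 * g + 2)) *
      ((g + 1) * p ^ (d * (2 * g + 2) * (3 * g + 1)) + g) := by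
  refine (orderOf_le hp hd C hv (dom_of hD.1 hD.2.1 hD.2.2)).trans (le_of_eq ?_)
  rw [bd, ← pow_mul]
  ring

end H12UBI
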