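import Pool.Agent.Helper12_UBI.Y0

/-!
Elements with bounded poles at infinity; the domain property over a field; units of given order.
-/

open Polynomial

namespace H12UBI

open H58UB

section ge

variable {A : Type*} [CommRing A]

theorem ge_of_mul {n m : ℤ} {s q : LaurentSeries A} (hq : Ge m q) (hu : IsUnit (q.coeff m))
    (h : Ge n (s * q)) : Ge (n - m) s := by
  obtain ⟨p, rfl⟩ := ge_iff.1 hq
  rw [coeff_single_mul_ps] at hu
  obtain ⟨p', hp'⟩ := (PowerSeries.isUnit_iff_constantCoeff.2 hu).exists_right_inv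
  have h1 : s = (s * (HahnSeries.single m (1 : A) * HahnSeries.ofPowerSeries ℤ A p)) *
      (HahnSeries.single (-m) (1 : A) * HahnSeries.ofPowerSeries ℤ A p') := by
    rw [mul_assoc, mul_mul_mul_comm, HahnSeries.single_mul_single, ← map_mul, hp']
    simp
  rw [h1]
  have h2 : Ge (-m) (HahnSeries.single (-m) (1 : A) * HahnSeries.ofPowerSeries ℤ A p') :=
    ge_iff.2 ⟨p', rfl⟩
  exact (h.mul h2).mono (by omega)

theorem natDegree_le_of_ge {p : A[X]} {n : ℕ} (h : Ge (-(n : ℤ)) (ex A p)) :
    p.natDegree ≤ n := by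
  by_contra hlt
  push Not at hlt
  have h1 := h (-(p.natDegree : ℤ)) (by omega)
  rw [coeff_ex_neg, coeff_natDegree, leadingCoeff_eq_zero] at h1
  rw [h1] at hlt
  simp at hlt

theorem eq_C_of_ge_zero {p : A[X]} (h : Ge 0 (ex A p)) : p = C (p.coeff 0) := by
  refine eq_C_of_natDegree_le_zero (natDegree_le_of_ge (n := 0) ?_)
  simpa using h

theorem eq_zero_of_ge_one {p : A[X]} (h : Ge 1 (ex A p)) : p = 0 := by
  ext n
  rw [← coeff_ex_neg, h _ (by omega), coeff_zero]

variable {g : ℕ} {h r : A[X]}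

/-- poles of order at most `n` at both points at infinity -/
def Fn (S : Shape g h r) (n : ℕ) (u : CR A h r) : Prop :=
  Ge (-(n : ℤ)) (e0 S u) ∧ Ge (-(n : ℤ)) (e1 S u)

theorem Fn.mul {S : Shape g h r} {n m : ℕ} {u v : CR A h r} (hu : Fn S n u) (hv : Fn S m v) :
    Fn S (n + m) (u * v) := by
  constructor
  · rw [map_mul]
    exact (hu.1.mul hv.1).mono (by push_cast; omega)
  · rw [map_mul]
    exact (hu.2.mul hv.2).mono (by push_cast; omega)

theorem Fn.add {S : Shape g h r} {n : ℕ} {u v : CR A h r} (hu : Fn S n u) (hv : Fn S n v) :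
    Fn S n (u + v) := by
  constructor
  · rw [map_add]; exact hu.1.add hv.1
  · rw [map_add]; exact hu.2.add hv.2

theorem Fn.sub {S : Shape g h r} {n : ℕ} {u v : CR A h r} (hu : Fn S n u) (hv : Fn S n v) :
    Fn S n (u - v) := by
  constructor
  · rw [map_sub]; exact hu.1.sub hv.1
  · rw [map_sub]; exact hu.2.sub hv.2

theorem Fn.star {S : Shape g h r} {n : ℕ} {u : CR A h r} (hu : Fn S n u) :
    Fn S n (Star.star u) := by
  constructor
  · rw [e0_star]; exact hu.2
  · rw [e1_star]; exact hu.1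

theorem Fn.pow {S : Shape g h r} {n : ℕ} {u : CR A h r} (hu : Fn S n u) (k : ℕ) :
    Fn S (k * n) (u ^ k) := by
  constructor
  · rw [map_pow]
    exact (hu.1.pow k).mono (by push_cast; linarith)
  · rw [map_pow]
    exact (hu.2.pow k).mono (by push_cast; linarith)

theorem ge_q (S : Shape g h r) : Ge (-((g + 1 : ℕ) : ℤ)) (-ex A h - 2 * y0 S) := by
  have h1 : Ge 1 (2 * y0 S) := by
    rw [two_mul]; exact (ge_y0 S).add (ge_y0 S)
  exact ((ge_ex (le_of_eq S.deg)).neg).sub (h1.mono (by omega))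

theorem coeff_q (S : Shape g h r) :
    (-ex A h - 2 * y0 S).coeff (-((g + 1 : ℕ) : ℤ)) = -1 := by
  have h1 : Ge 1 (2 * y0 S) := by
    rw [two_mul]; exact (ge_y0 S).add (ge_y0 S)
  rw [HahnSeries.coeff_sub, HahnSeries.coeff_neg, coeff_ex_neg, h1 _ (by omega), ← S.deg,
    coeff_natDegree, S.monic]
  simp

theorem fn_im {S : Shape g h r} {n : ℕ} {u : CR A h r} (hu : Fn S n u) :
    ∀ j, n < j + (g + 1) → u.im.coeff j = 0 := by
  intro j hj
  have h1 : Ge (-(n : ℤ)) (ex A u.im * (-ex A h - 2 * y0 S)) := by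
    rw [← e1_sub_e0]
    exact hu.2.sub hu.1
  have h2 := ge_of_mul (ge_q S) (by rw [coeff_q]; exact isUnit_one.neg) h1
  rw [← coeff_ex_neg]
  exact h2 _ (by push_cast; omega)

theorem fn_re {S : Shape g h r} {n : ℕ} {u : CR A h r} (hu : Fn S n u) :
    u.re.natDegree ≤ n := by
  refine natDegree_le_of_ge ?_
  have h1 : ex A u.re = e0 S u - ex A u.im * y0 S := by
    rw [e0_apply]; ring
  rw [h1]
  refine hu.1.sub ?_
  have h2 : Ge (-(n : ℤ)) (ex A u.im) := by
    refine ge_ex ?_
    by_contra hlt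
    push Not at hlt
    have := fn_im hu u.im.natDegree (by omega)
    rw [coeff_natDegree, leadingCoeff_eq_zero] at this
    rw [this] at hlt
    simp at hlt
  exact (h2.mul (ge_y0 S)).mono (by omega)

theorem fn_of_deg (S : Shape g h r) {n : ℕ} {u : CR A h r} (h1 : u.re.natDegree ≤ n)
    (h2 : ∀ j, n < j + (g + 1) → u.im.coeff j = 0) : Fn S n u := by
  have him : u.im = 0 ∨ u.im.natDegree + (g + 1) ≤ n := by
    by_cases h0 : u.im = 0
    · exact Or.inl h0
    · right
      by_contra hlt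
      push Not at hlt
      have := h2 u.im.natDegree hlt
      rw [coeff_natDegree, leadingCoeff_eq_zero] at this
      exact h0 this
  have hre : Ge (-(n : ℤ)) (ex A u.re) := ge_ex h1
  rcases him with him | him
  · constructor
    · rw [e0_apply, him, map_zero, zero_mul, add_zero]; exact hre
    · rw [e1_apply, him, map_zero, zero_mul, add_zero]; exact hre
  · have h3 : Ge (-((u.im.natDegree : ℕ) : ℤ)) (ex A u.im) := ge_ex le_rfl
    constructor
    · rw [e0_apply]
      exact hre.add ((h3.mul (ge_y0 S)).mono (by omega))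
    · rw [e1_apply]
      refine hre.add ((h3.mul (m := -((g + 1 : ℕ) : ℤ)) ?_).mono (by push_cast; omega))
      exact ((ge_ex (le_of_eq S.deg)).neg).sub ((ge_y0 S).mono (by omega))

/-- there is a nonzero element with a zero of order `n` at the first point at infinity and a
pole of order at most `n` at the second one -/
def U (S : Shape g h r) (n : ℕ) : Prop :=
  ∃ u : CR A h r, u ≠ 0 ∧ Ge (n : ℤ) (e0 S u) ∧ Ge (-(n : ℤ)) (e1 S u)

variable {B : Type*} [CommRing B] [Nontrivial B]

theorem Fn.cmap {S : Shape g h r} {n : ℕ} {u : CR A h r} (hu : Fn S n u) (φ : A →+* B) :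
    Fn (smap S φ) n (cmap φ h r u) := by
  constructor
  · rw [← lmap_e0]; exact ge_lmap hu.1 φ
  · rw [← lmap_e1]; exact ge_lmap hu.2 φ

/-- lifting of elements with bounded poles -/
theorem Fn.lift {S : Shape g h r} {n : ℕ} (φ : A →+* B) (hφ : Function.Surjective φ)
    {v : CR B (h.map φ) (r.map φ)} (hv : Fn (smap S φ) n v) :
    ∃ u : CR A h r, Fn S n u ∧ H12UBI.cmap φ h r u = v := by
  obtain ⟨p, hp, hpd⟩ : ∃ p : A[X], p.map φ = v.re ∧ p.natDegree ≤ n := by
    obtain ⟨p, hp⟩ := Polynomial.map_surjective φ hφ v.re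
    refine ⟨∑ i ∈ Finset.range (n + 1), monomial i (p.coeff i), ?_, ?_⟩
    · ext j
      rw [coeff_map, finsetSum_coeff]
      simp only [coeff_monomial, Finset.sum_ite_eq', Finset.mem_range]
      split_ifs with hj
      · rw [← hp, coeff_map]
      · rw [map_zero]
        exact (coeff_eq_zero_of_natDegree_lt (lt_of_le_of_lt (fn_re hv) (by omega))).symm
    · refine natDegree_sum_le_of_forall_le _ _ fun i hi => ?_
      refine le_trans (natDegree_monomial_le _) ?_
      have := Finset.mem_range.1 hi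
      omega
  obtain ⟨q, hq, hqd⟩ : ∃ q : A[X], q.map φ = v.im ∧ ∀ j, n < j + (g + 1) → q.coeff j = 0 := by
    obtain ⟨p, hp⟩ := Polynomial.map_surjective φ hφ v.im
    refine ⟨∑ i ∈ Finset.range (n - g), monomial i (p.coeff i), ?_, ?_⟩
    · ext j
      rw [coeff_map, finsetSum_coeff]
      simp only [coeff_monomial, Finset.sum_ite_eq', Finset.mem_range]
      split_ifs with hj
      · rw [← hp, coeff_map]
      · rw [map_zero]
        exact (fn_im hv j (by omega)).symm
    · intro j hj
      rw [finsetSum_coeff]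
      simp only [coeff_monomial, Finset.sum_ite_eq', Finset.mem_range]
      rw [if_neg (by omega)]
  refine ⟨⟨p, q⟩, fn_of_deg S hpd hqd, ?_⟩
  exact QuadraticAlgebra.ext hp hq

end ge

section field

variable {k : Type*} [Field k] {g : ℕ} {h r : k[X]}

theorem norm_ne_zero (S : Shape g h r) (hr : r ≠ 0) {u : CR k h r} (hu : u ≠ 0) :
    u.norm ≠ 0 := by
  intro hn
  rw [QuadraticAlgebra.norm_def] at hn
  have hB : u.im ≠ 0 := by
    intro hB
    apply hu
    rw [hB] at hn
    have : u.re = 0 := by simpa using hn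
    exact QuadraticAlgebra.ext this hB
  classical
  -- divide by the gcd
  set d := EuclideanDomain.gcd u.re u.im with hd
  have hd0 : d ≠ 0 := by
    intro h0
    rw [hd, EuclideanDomain.gcd_eq_zero_iff] at h0
    exact hB h0.2
  obtain ⟨a, ha⟩ := EuclideanDomain.gcd_dvd_left u.re u.im
  obtain ⟨b, hb⟩ := EuclideanDomain.gcd_dvd_right u.re u.im
  rw [← hd] at ha hb
  have hcop : IsCoprime a b := by
    have := EuclideanDomain.gcd_eq_gcd_ab u.re u.im
    rw [← hd] at this
    refine ⟨EuclideanDomain.gcdA u.re u.im, EuclideanDomain.gcdB u.re u.im, ?_⟩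
    generalize EuclideanDomain.gcdA u.re u.im = x at this ⊢
    generalize EuclideanDomain.gcdB u.re u.im = z at this ⊢
    have h2 : d * (x * a + z * b) = d * 1 := by
      linear_combination (-1 : k[X]) * this - x * ha - z * hb
    exact mul_left_cancel₀ hd0 h2
  have hb0 : b ≠ 0 := by
    rintro rfl
    exact hB (by rw [hb, mul_zero])
  have heq : a * (a - h * b) = b * (b * r) := by
    have h2 : d ^ 2 * (a * (a - h * b)) = d ^ 2 * (b * (b * r)) := by
      rw [ha, hb] at hn
      linear_combination hn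
    exact mul_left_cancel₀ (pow_ne_zero 2 hd0) h2
  have hdvd : b ∣ a * a := ⟨b * r + a * h, by linear_combination heq⟩
  have hbu : IsUnit b := by
    have h1 : IsCoprime b (a * a) := (hcop.symm.mul_right hcop.symm)
    exact h1.isUnit_of_dvd' dvd_rfl hdvd
  obtain ⟨β, hβ, rfl⟩ := Polynomial.isUnit_iff.1 hbu
  have hβ0 : β ≠ 0 := hβ.ne_zero
  have hrhs : C β * (C β * r) ≠ 0 := mul_ne_zero hb0 (mul_ne_zero hb0 hr)
  have ha0 : a ≠ 0 := by rintro rfl; rw [zero_mul] at heq; exact hrhs heq.symm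
  have ha1 : a - h * C β ≠ 0 := by intro h0; rw [h0, mul_zero] at heq; exact hrhs heq.symm
  have hdeg := congrArg natDegree heq
  rw [natDegree_mul ha0 ha1, natDegree_C_mul hβ0, natDegree_C_mul hβ0] at hdeg
  have hr' := S.degr
  have hh : (h * C β).natDegree = g + 1 := by rw [natDegree_mul_C hβ0, S.deg]
  rcases lt_or_ge a.natDegree (g + 1) with h1 | h1
  · have : (a - h * C β).natDegree = g + 1 := by
      rw [natDegree_sub_eq_right_of_natDegree_lt (by omega), hh]
    omega
  · omega

theorem cr_noZeroDivisors (S : Shape g h r) (hr : r ≠ 0) : NoZeroDivisors (CR k h r) := by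
  constructor
  intro a b hab
  by_contra hne
  push Not at hne
  have h1 := mul_ne_zero (norm_ne_zero S hr hne.1) (norm_ne_zero S hr hne.2)
  rw [← map_mul, hab, QuadraticAlgebra.norm_zero] at h1
  exact h1 rfl

theorem U.zero (S : Shape g h r) : U S 0 := by
  refine ⟨1, one_ne_zero, ?_, ?_⟩
  · rw [map_one]
    intro j hj
    rw [HahnSeries.coeff_one, if_neg (by omega)]
  · rw [map_one]
    intro j hj
    rw [HahnSeries.coeff_one, if_neg (by omega)]

theorem U.add {S : Shape g h r} (hr : r ≠ 0) {n m : ℕ} (hn : U S n) (hm : U S m) :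
    U S (n + m) := by
  obtain ⟨u, hu, hu0, hu1⟩ := hn
  obtain ⟨v, hv, hv0, hv1⟩ := hm
  have := cr_noZeroDivisors S hr
  refine ⟨u * v, mul_ne_zero hu hv, ?_, ?_⟩
  · rw [map_mul]; exact (hu0.mul hv0).mono (by push_cast; omega)
  · rw [map_mul]; exact (hu1.mul hv1).mono (by push_cast; omega)

theorem U.sub {S : Shape g h r} (hr : r ≠ 0) {n m : ℕ} (hn : U S n) (hm : U S m) (hmn : m ≤ n) :
    U S (n - m) := by
  obtain ⟨u, hu, hu0, hu1⟩ := hn
  obtain ⟨v, hv, hv0, hv1⟩ := hm
  have := cr_noZeroDivisors S hr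
  refine ⟨u * star v, mul_ne_zero hu (fun h0 => hv (by simpa using congrArg star h0)), ?_, ?_⟩
  · rw [map_mul, e0_star]; exact (hu0.mul hv1).mono (by omega)
  · rw [map_mul, e1_star]; exact (hu1.mul hv0).mono (by omega)

theorem U.mul {S : Shape g h r} (hr : r ≠ 0) {n : ℕ} (hn : U S n) (k : ℕ) : U S (k * n) := by
  induction k with
  | zero => rw [zero_mul]; exact U.zero S
  | succ k ih => rw [add_mul, one_mul]; exact ih.add hr hn

theorem U.mod {S : Shape g h r} (hr : r ≠ 0) {n m : ℕ} (hn : U S n) (hm : U S m) :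
    U S (n % m) := by
  have h1 : n % m = n - (n / m) * m := by
    have := Nat.div_add_mod n m
    rw [mul_comm] at this
    omega
  rw [h1]
  exact hn.sub hr (hm.mul hr _) (Nat.div_mul_le_self n m)

/-- the norm of such an element is a nonzero constant, the orders are exact -/
theorem U_spec {S : Shape g h r} (hr : r ≠ 0) {n : ℕ} {u : CR k h r} (hu : u ≠ 0)
    (h0 : Ge (n : ℤ) (e0 S u)) (h1 : Ge (-(n : ℤ)) (e1 S u)) :
    ∃ c : k, c ≠ 0 ∧ u.norm = C c ∧ (e0 S u).coeff n * (e1 S u).coeff (-(n : ℤ)) = c := by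
  have h2 : Ge 0 (ex k u.norm) := by
    rw [← e0_mul_e1 S]
    exact (h0.mul h1).mono (by omega)
  have h3 := eq_C_of_ge_zero h2
  refine ⟨u.norm.coeff 0, ?_, h3, ?_⟩
  · intro hc
    rw [hc, map_zero] at h3
    exact norm_ne_zero S hr hu h3
  · rw [← Ge.coeff_mul h0 h1, e0_mul_e1]
    have := coeff_ex_neg u.norm 0
    simpa using this

end field

end H12UBI
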