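import Pool.Agent.Helper12_UBI.Nf

/-!
From the dominance condition at a finite place of `K` to integral data over an extension of
degree at most `2g+2`.
-/

open Polynomial NumberField IsDedekindDomain

namespace H12UBI

open H58UB

theorem exists_root_ext (K : Type) [Field K] [NumberField K] (a : K) (n : ℕ) (hn : 0 < n) :
    ∃ (E : Type) (_ : Field E) (_ : NumberField E) (_ : Algebra K E) (b : E),
      b ^ n = algebraMap K E a ∧ Module.finrank K E ≤ n := by
  have hd : (X ^ n - C a : K[X]).natDegree = n := natDegree_X_pow_sub_C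
  have hm : (X ^ n - C a : K[X]).Monic := monic_X_pow_sub_C a hn.ne'
  obtain ⟨q, hq, hqd⟩ := Polynomial.exists_irreducible_of_natDegree_pos
    (f := (X ^ n - C a : K[X])) (by rw [hd]; exact hn)
  have : Fact (Irreducible q) := ⟨hq⟩
  have hfin : Module.Finite K (AdjoinRoot q) := Module.Finite.of_basis (AdjoinRoot.powerBasis
    hq.ne_zero).basis
  have hfr : Module.finrank K (AdjoinRoot q) = q.natDegree := by
    rw [(AdjoinRoot.powerBasis hq.ne_zero).finrank, AdjoinRoot.powerBasis_dim]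
  refine ⟨AdjoinRoot q, inferInstance, NumberField.of_module_finite K (AdjoinRoot q),
    inferInstance, AdjoinRoot.root q, ?_, ?_⟩
  · obtain ⟨s, hs⟩ := hqd
    have h1 : (X ^ n - C a : K[X]).aeval (AdjoinRoot.root q) = 0 := by
      rw [hs, map_mul, AdjoinRoot.aeval_eq, AdjoinRoot.mk_self, zero_mul]
    simp only [map_sub, map_pow, aeval_X, aeval_C] at h1
    exact sub_eq_zero.1 h1
  · rw [hfr]
    have := natDegree_le_of_dvd hqd hm.ne_zero
    omega

/-- a place above, with the transfer of integrality -/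
theorem exists_place (K E : Type) [Field K] [NumberField K] [Field E] [NumberField E]
    [Algebra K E] (v : HeightOneSpectrum (𝓞 K)) :
    ∃ w : HeightOneSpectrum (𝓞 E),
      (∀ x : 𝓞 K, x ∈ v.asIdeal → algebraMap (𝓞 K) (𝓞 E) x ∈ w.asIdeal) ∧
      ∀ x : K, v.valuation K x ≤ 1 → w.valuation E (algebraMap K E x) ≤ 1 := by
  have hvp : v.asIdeal.IsPrime := v.isPrime
  obtain ⟨⟨P, hPprime, hPv⟩⟩ := Ideal.nonempty_primesOver (S := 𝓞 E) v.asIdeal
  have hmem : ∀ x : 𝓞 K, x ∈ v.asIdeal ↔ algebraMap (𝓞 K) (𝓞 E) x ∈ P := by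
    intro x
    have h1 : x ∈ v.asIdeal ↔ x ∈ P.under (𝓞 K) := by rw [← hPv.over]
    exact h1
  have hP0 : P ≠ ⊥ := by
    rintro rfl
    apply v.ne_bot
    rw [eq_bot_iff]
    intro x hx
    have h1 := (hmem x).1 hx
    rw [Ideal.mem_bot] at h1 ⊢
    exact (map_eq_zero_iff _ (FaithfulSMul.algebraMap_injective (𝓞 K) (𝓞 E))).1 h1
  let w : HeightOneSpectrum (𝓞 E) := ⟨P, hPprime, hP0⟩
  refine ⟨w, fun x hx => (hmem x).1 hx, ?_⟩
  intro x hx
  obtain ⟨n, d, hnd⟩ := HeightOneSpectrum.exists_primeCompl_mul_eq_of_integer v x hx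
  have h1 : algebraMap K E x * algebraMap (𝓞 E) E (algebraMap (𝓞 K) (𝓞 E) (d : 𝓞 K)) =
      algebraMap (𝓞 E) E (algebraMap (𝓞 K) (𝓞 E) n) := by
    rw [← IsScalarTower.algebraMap_apply (𝓞 K) (𝓞 E) E, ← IsScalarTower.algebraMap_apply (𝓞 K)
      (𝓞 E) E, IsScalarTower.algebraMap_apply (𝓞 K) K E, IsScalarTower.algebraMap_apply (𝓞 K) K E,
      ← map_mul, hnd]
  have h2 : w.valuation E (algebraMap (𝓞 E) E (algebraMap (𝓞 K) (𝓞 E) (d : 𝓞 K))) = 1 := by
    rw [HeightOneSpectrum.valuation_eq_one_iff_notMem]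
    intro h3
    exact d.2 ((hmem _).2 h3)
  have h3 := congrArg (w.valuation E) h1
  rw [map_mul, h2, mul_one] at h3
  rw [h3]
  exact HeightOneSpectrum.valuation_le_one w _

/-- the dominance condition at a place -/
def Dom {K : Type} [Field K] [NumberField K] (g : ℕ) (h r : K[X]) (v : HeightOneSpectrum (𝓞 K)) :
    Prop :=
  ∃ i ≤ g, r.coeff i ≠ 0 ∧
    (∀ j ≤ g, v.valuation K (r.coeff j) ^ (2 * g + 2 - i) ≤
      v.valuation K (r.coeff i) ^ (2 * g + 2 - j)) ∧
    (∀ j ≤ g, v.valuation K (h.coeff j) ^ (2 * g + 2 - i) ≤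
      v.valuation K (r.coeff i) ^ (g + 1 - j))

/-- the bound -/
def bd (g D p : ℕ) : ℕ := ((g + 1) * (p ^ D) ^ (3 * g + 1) + g) * (2 * D)

theorem bd_mono (g p : ℕ) (hp : 0 < p) {D D' : ℕ} (h : D ≤ D') : bd g D p ≤ bd g D' p := by
  unfold bd
  have h1 : p ^ D ≤ p ^ D' := Nat.pow_le_pow_right hp h
  gcongr

theorem dom_bound {K : Type} [Field K] [NumberField K] {g d p : ℕ} (hp : p.Prime)
    (hd : Module.finrank ℚ K ≤ d) {h r : K[X]} {S : Shape g h r}
    {v : HeightOneSpectrum (𝓞 K)} (hv : ((p : ℕ) : 𝓞 K) ∈ v.asIdeal) (hD : Dom g h r v)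
    (hU : ∃ N, 0 < N ∧ U S N) :
    ∃ N, 0 < N ∧ N ≤ bd g (d * (2 * g + 2)) p ∧ U S N := by
  obtain ⟨i, hig, hri, hrj, hhj⟩ := hD
  set a := r.coeff i with ha
  obtain ⟨E, i1, i2, i3, b, hb, hE⟩ := exists_root_ext K a (2 * g + 2 - i) (by omega)
  obtain ⟨w, hw1, hw2⟩ := exists_place K E v
  have hpw : ((p : ℕ) : 𝓞 E) ∈ w.asIdeal := by
    have := hw1 _ hv
    rwa [map_natCast] at this
  set n := 2 * g + 2 - i with hn
  have hn0 : n ≠ 0 := by omega
  have hb0 : b ≠ 0 := by
    rintro rfl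
    rw [zero_pow hn0] at hb
    exact hri ((map_eq_zero (algebraMap K E)).1 hb.symm)
  have hva : v.valuation K a ≠ 0 := (Valuation.ne_zero_iff _).2 hri
  -- integrality of the scaled data
  have hint : ∀ (m : ℕ) (c : K) (j : ℕ), j ≤ m →
      v.valuation K c ^ n ≤ v.valuation K a ^ (m - j) →
      w.valuation E ((b ^ m)⁻¹ * (algebraMap K E c * b ^ j)) ≤ 1 := by
    intro m c j hjm hc
    rw [← pow_le_one_iff hn0, ← map_pow]
    have h1 : ((b ^ m)⁻¹ * (algebraMap K E c * b ^ j)) ^ n =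
        algebraMap K E (c ^ n / a ^ (m - j)) := by
      rw [map_div₀, map_pow, map_pow, ← hb, mul_pow, mul_pow, inv_pow, ← pow_mul, ← pow_mul,
        ← pow_mul]
      have h2 : m * n = n * (m - j) + j * n := by
        obtain ⟨m', rfl⟩ := Nat.exists_eq_add_of_le hjm
        have : j + m' - j = m' := by omega
        rw [this]; ring
      rw [h2, pow_add]
      have h3 := pow_ne_zero (j * n) hb0
      have h4 := pow_ne_zero (n * (m - j)) hb0
      field_simp
    rw [h1]
    apply hw2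
    rw [map_div₀, map_pow, map_pow]
    exact div_le_one_of_le₀ hc (by simp)
  have hfin : Module.Finite K E := by
    have := FiniteDimensional.right ℚ K E
    exact this
  have hdeg : Module.finrank ℚ E ≤ d * (2 * g + 2) := by
    rw [← Module.finrank_mul_finrank ℚ K E]
    exact Nat.mul_le_mul hd (by omega)
  set S1 := smap S (algebraMap K E) with hS1
  have hres := nf_bound E w hp hpw (S := wsc_shape S1 hb0) (i := i) ?_ ?_ ?_ ?_
  · obtain ⟨N, hN0, hNB, hN⟩ := hres
    refine ⟨N, hN0, ?_, U.of_ext (L := E) (U.of_wsc hb0 hN)⟩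
    exact hNB.trans (bd_mono g p hp.pos hdeg)
  · intro j
    rw [coeff_wsc, coeff_map]
    rcases Nat.lt_or_ge j (g + 1) with hj | hj
    · exact hint (g + 1) _ j hj.le (hhj j (by omega))
    · rcases Nat.eq_or_lt_of_le hj with hj | hj
      · rw [← hj]
        have h2 : h.coeff (g + 1) = 1 := by
          have := S.monic
          rw [Monic, leadingCoeff, S.deg] at this
          exact this
        rw [h2, map_one, one_mul, inv_mul_cancel₀ (pow_ne_zero _ hb0), map_one]
      · rw [coeff_eq_zero_of_natDegree_lt (by rw [S.deg]; exact hj)]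
        simp
  · intro j
    rw [coeff_wsc, coeff_map]
    rcases Nat.lt_or_ge g j with hj | hj
    · have := S.degr
      rw [coeff_eq_zero_of_natDegree_lt (lt_of_le_of_lt this hj)]
      simp
    · exact hint (2 * g + 2) _ j (by omega) (hrj j hj)
  · rw [coeff_wsc, coeff_map, ← ha, ← hb, ← pow_add]
    have : n + i = 2 * g + 2 := by omega
    rw [this, inv_mul_cancel₀ (pow_ne_zero _ hb0), map_one]
  · obtain ⟨N, hN0, hN⟩ := hU
    exact ⟨N, hN0, (hN.map (algebraMap K E) (algebraMap K E).injective).wsc hb0⟩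

end H12UBI
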