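import Pool.Agent.Helper12_UBI.Pig

/-!
Elements over a discrete valuation ring whose first coefficients at infinity are divisible by a
power of the uniformizer; extraction of roots.
-/

open Polynomial

namespace H12UBI

open H58UB

section general

variable {A : Type*} [CommRing A]

/-- the coefficients of degree below `n` are divisible by `a` -/
def D (a : A) (n : ℤ) (s : LaurentSeries A) : Prop := ∀ j, j < n → a ∣ s.coeff j

theorem D.add {a : A} {n : ℤ} {s t : LaurentSeries A} (hs : D a n s) (ht : D a n t) :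
    D a n (s + t) := by
  intro j hj
  rw [HahnSeries.coeff_add]
  exact dvd_add (hs j hj) (ht j hj)

theorem D.of_ge {a : A} {n : ℤ} {s : LaurentSeries A} (hs : Ge n s) : D a n s := by
  intro j hj
  rw [hs j hj]
  exact dvd_zero a

theorem D.of_dvd {a b : A} {n : ℤ} {s : LaurentSeries A} (hab : a ∣ b) (hs : D b n s) :
    D a n s := fun j hj => hab.trans (hs j hj)

theorem D.C_mul {a : A} {n : ℤ} {s : LaurentSeries A} : D a n (HahnSeries.C a * s) := by
  intro j _
  rw [coeff_C_mul']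
  exact Dvd.intro _ rfl

theorem D.split {a : A} {n m : ℤ} {s : LaurentSeries A} (hs : Ge m s) (hD : D a n s) :
    ∃ x b : LaurentSeries A, s = x + HahnSeries.C a * b ∧ Ge n x ∧ Ge m b := by
  classical
  let f : ℤ → A := fun j => if hj : m ≤ j ∧ j < n then Classical.choose (hD j hj.2) else 0
  have hf : BddBelow (Function.support f) := by
    refine ⟨m, ?_⟩
    intro j hj
    by_contra hlt
    apply hj
    simp only [f]
    rw [dif_neg (fun h => hlt h.1)]
  let b : LaurentSeries A := HahnSeries.ofSuppBddBelow f hf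
  have hb : ∀ j, b.coeff j = f j := fun j => rfl
  refine ⟨s - HahnSeries.C a * b, b, by ring, ?_, ?_⟩
  · intro j hj
    rw [HahnSeries.coeff_sub, coeff_C_mul', hb]
    simp only [f]
    by_cases h : m ≤ j
    · rw [dif_pos ⟨h, hj⟩]
      have := Classical.choose_spec (hD j hj)
      rw [← this, sub_self]
    · rw [dif_neg (fun h' => h h'.1), hs j (by omega)]
      simp
  · intro j hj
    rw [hb]
    simp only [f]
    rw [dif_neg (fun h' => by omega)]

variable {g : ℕ} {h r : A[X]}

/-- constants -/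
noncomputable def cst (h r : A[X]) : A →+* CR A h r := (algebraMap A[X] (CR A h r)).comp C

@[simp] theorem cst_re (a : A) : (cst h r a).re = C a := by
  simp [cst]

@[simp] theorem cst_im (a : A) : (cst h r a).im = 0 := by
  simp [cst]

@[simp] theorem e0_cst (S : Shape g h r) (a : A) : e0 S (cst h r a) = HahnSeries.C a := by
  rw [e0_apply, cst_re, cst_im, map_zero, zero_mul, add_zero, ex_C]

@[simp] theorem e1_cst (S : Shape g h r) (a : A) : e1 S (cst h r a) = HahnSeries.C a := by
  rw [e1_apply, cst_re, cst_im, map_zero, zero_mul, add_zero, ex_C]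

theorem ge_C_mul {n : ℤ} {s : LaurentSeries A} (hs : Ge n s) (a : A) :
    Ge n (HahnSeries.C a * s) := by
  intro j hj
  rw [coeff_C_mul', hs j hj, mul_zero]

theorem ge_of_C_mul [NoZeroDivisors A] {n : ℤ} {s : LaurentSeries A} {a : A} (ha : a ≠ 0)
    (hs : Ge n (HahnSeries.C a * s)) : Ge n s := by
  intro j hj
  have := hs j hj
  rw [coeff_C_mul'] at this
  rcases mul_eq_zero.1 this with h | h
  · exact absurd h ha
  · exact h

theorem D.of_C_mul [IsDomain A] {n : ℤ} {s : LaurentSeries A} {a b : A} (ha : a ≠ 0)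
    (hs : D (a * b) n (HahnSeries.C a * s)) : D b n s := by
  intro j hj
  have := hs j hj
  rw [coeff_C_mul'] at this
  exact (mul_dvd_mul_iff_left ha).1 this

theorem Fn.cst_mul {S : Shape g h r} {n : ℕ} {u : CR A h r} (hu : Fn S n u) (a : A) :
    Fn S n (cst h r a * u) := by
  constructor
  · rw [map_mul, e0_cst]; exact ge_C_mul hu.1 a
  · rw [map_mul, e1_cst]; exact ge_C_mul hu.2 a

theorem cmap_cst {B : Type*} [CommRing B] (φ : A →+* B) (a : A) :
    cmap φ h r (cst h r a) = cst _ _ (φ a) := by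
  refine QuadraticAlgebra.ext ?_ ?_
  · rw [cmap_re, cst_re, cst_re, Polynomial.map_C]
  · rw [cmap_im, cst_im, cst_im, Polynomial.map_zero]

/-- the binomial expansion to second order at a prime exponent -/
theorem add_pow_prime {R : Type*} [CommRing R] {l : ℕ} (hl : l.Prime) (x y : R) :
    ∃ s : R, (x + y) ^ l = x ^ l + l * x ^ (l - 1) * y + y ^ l + l * y ^ 2 * s := by
  obtain ⟨k, rfl⟩ : ∃ k, l = k + 2 := ⟨l - 2, by have := hl.two_le; omega⟩
  have h1 : ((k + 2 : ℕ) : R) * y ^ 2 ∣
      ∑ m ∈ Finset.range k, x ^ (m + 1) * y ^ (k + 2 - (m + 1)) * ((k + 2).choose (m + 1)) := by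
    refine Finset.dvd_sum fun m hm => ?_
    have hm' := Finset.mem_range.1 hm
    have h2 : (k + 2) ∣ (k + 2).choose (m + 1) :=
      hl.dvd_choose_self (by omega) (by omega)
    obtain ⟨c, hc⟩ := h2
    have h3 : k + 2 - (m + 1) = (k - 1 - m) + 2 := by omega
    rw [h3, hc, pow_add y]
    refine ⟨x ^ (m + 1) * y ^ (k - 1 - m) * c, ?_⟩
    push_cast
    ring
  obtain ⟨s, hs⟩ := h1
  refine ⟨s, ?_⟩
  rw [add_pow, Finset.sum_range_succ, Finset.sum_range_succ, Finset.sum_range_succ', hs]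
  simp only [pow_zero, Nat.choose_zero_right, Nat.choose_self, Nat.cast_one, tsub_self,
    Nat.sub_zero, one_mul, mul_one]
  have h4 : k + 2 - (k + 1) = 1 := by omega
  have h5 : (k + 2).choose (k + 1) = k + 2 := by
    rw [← Nat.choose_symm_of_eq_add (n := k + 2) (a := 1) (b := k + 1) (by omega)]
    simp
  have h6 : k + 2 - 1 = k + 1 := by omega
  rw [h4, h5, h6]
  push_cast
  ring

theorem ge_coeff_pow {n : ℤ} {s : LaurentSeries A} (hs : Ge n s) (k : ℕ) :
    (s ^ k).coeff (k * n) = s.coeff n ^ k := by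
  induction k with
  | zero => simp
  | succ k ih =>
    rw [pow_succ, pow_succ, ← ih]
    have h1 : ((k + 1 : ℕ) : ℤ) * n = k * n + n := by push_cast; ring
    rw [h1]
    exact Ge.coeff_mul (hs.pow k) hs

end general

section dvr

variable {V : Type*} [CommRing V] [IsDomain V] [IsDiscreteValuationRing V] {g : ℕ} {h r : V[X]}

theorem residue_eq_zero_iff' {π : V} (hπ : Irreducible π) (a : V) : (IsLocalRing.residue V) a = 0 ↔ π ∣ a := by
  rw [IsLocalRing.residue_eq_zero_iff, hπ.maximalIdeal_eq, Ideal.mem_span_singleton]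

theorem exists_of_cmap_zero {π : V} (hπ : Irreducible π) {z : CR V h r}
    (hz : cmap (IsLocalRing.residue V) h r z = 0) : ∃ z', z = cst h r π * z' := by
  have h1 : ∀ p : V[X], p.map (IsLocalRing.residue V) = 0 → ∃ p', p = C π * p' := by
    intro p hp
    have : C π ∣ p := by
      rw [Polynomial.C_dvd_iff_dvd_coeff]
      intro i
      rw [← residue_eq_zero_iff' hπ, ← coeff_map, hp, coeff_zero]
    exact this
  obtain ⟨a, ha⟩ := h1 z.re (congrArg QuadraticAlgebra.re hz)
  obtain ⟨b, hb⟩ := h1 z.im (congrArg QuadraticAlgebra.im hz)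
  refine ⟨⟨a, b⟩, ?_⟩
  refine QuadraticAlgebra.ext ?_ ?_
  · rw [QuadraticAlgebra.re_mul, cst_re, cst_im]
    linear_combination ha
  · rw [QuadraticAlgebra.im_mul, cst_re, cst_im]
    linear_combination hb

theorem cst_mul_cancel {a : V} (ha : a ≠ 0) {z z' : CR V h r}
    (hz : cst h r a * z = cst h r a * z') : z = z' := by
  have h1 := congrArg QuadraticAlgebra.re hz
  have h2 := congrArg QuadraticAlgebra.im hz
  simp only [QuadraticAlgebra.re_mul, QuadraticAlgebra.im_mul, cst_re, cst_im, mul_zero, zero_mul,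
    add_zero] at h1 h2
  have hC : (C a : V[X]) ≠ 0 := C_ne_zero.2 ha
  exact QuadraticAlgebra.ext (mul_left_cancel₀ hC h1) (mul_left_cancel₀ hC h2)

theorem eq_zero_of_orders {k : Type*} [Field k] {h r : k[X]} {S : Shape g h r} (hr : r ≠ 0)
    {n : ℤ} {z : CR k h r} (h1 : Ge (-n) (e1 S z)) (h0 : Ge (n + 1) (e0 S z)) : z = 0 := by
  by_contra hz
  refine norm_ne_zero S hr hz (eq_zero_of_ge_one ?_)
  rw [← e0_mul_e1 S]
  exact (h0.mul h1).mono (by omega)

theorem ge_lmap_of_D {π : V} (hπ : Irreducible π) {n : ℤ} {s : LaurentSeries V} (hs : D π n s) :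
    Ge n (lmap (IsLocalRing.residue V) s) := by
  intro j hj
  rw [coeff_lmap, residue_eq_zero_iff' hπ]
  exact hs j hj

theorem lemZ {S : Shape g h r} (hr : r.map (IsLocalRing.residue V) ≠ 0) {π : V} (hπ : Irreducible π) {n : ℤ} (m : ℕ) :
    ∀ z : CR V h r, Ge (-n) (e1 S z) → D (π ^ m) (n + 1) (e0 S z) →
      ∃ δ, z = cst h r (π ^ m) * δ := by
  induction m with
  | zero => intro z _ _; exact ⟨z, by rw [pow_zero, map_one, one_mul]⟩
  | succ m ih =>
    intro z h1 h0
    have h3 : cmap (IsLocalRing.residue V) h r z = 0 := by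
      refine eq_zero_of_orders (S := smap S (IsLocalRing.residue V)) hr (n := n) ?_ ?_
      · rw [← lmap_e1 S]; exact ge_lmap h1 _
      · rw [← lmap_e0 S]
        exact ge_lmap_of_D hπ (h0.of_dvd (dvd_pow_self π (Nat.succ_ne_zero m)))
    obtain ⟨z', rfl⟩ := exists_of_cmap_zero hπ h3
    rw [map_mul, e1_cst] at h1
    rw [map_mul, e0_cst, pow_succ'] at h0
    obtain ⟨δ, rfl⟩ := ih z' (ge_of_C_mul hπ.ne_zero h1) (h0.of_C_mul hπ.ne_zero)
    exact ⟨δ, by rw [pow_succ', map_mul]; ring⟩

/-- elements with poles at most `n`, first coefficients divisible by `π^t`, nonzero reduction -/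
structure Lev (π : V) (t : ℕ) (S : Shape g h r) (n : ℕ) (w : CR V h r) : Prop where
  fn : Fn S n w
  d : D (π ^ t) (n : ℤ) (e0 S w)
  ne : cmap (IsLocalRing.residue V) h r w ≠ 0

theorem Lev.mono {π : V} {t t' : ℕ} {S : Shape g h r} {n : ℕ} {w : CR V h r}
    (hw : Lev π t S n w) (ht : t' ≤ t) : Lev π t' S n w :=
  ⟨hw.fn, hw.d.of_dvd (pow_dvd_pow π ht), hw.ne⟩

theorem cmap_pow_ne {S : Shape g h r} (hr : r.map (IsLocalRing.residue V) ≠ 0) {w : CR V h r}
    (hw : cmap (IsLocalRing.residue V) h r w ≠ 0) (k : ℕ) : cmap (IsLocalRing.residue V) h r (w ^ k) ≠ 0 := by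
  have := cr_noZeroDivisors (smap S (IsLocalRing.residue V)) hr
  rw [map_pow]
  exact pow_ne_zero k hw

/-- the level of a `p`-th power -/
theorem Lev.pow {π : V} {p : ℕ} (hp : p.Prime) {e : ℕ} {ε : V}
    (hpe : (p : V) = ε * π ^ e) {t : ℕ} {S : Shape g h r} (hr : r.map (IsLocalRing.residue V) ≠ 0) {n : ℕ}
    {w : CR V h r} (hw : Lev π t S n w) {t' : ℕ} (h1 : t' ≤ t + e) (h2 : t' ≤ p * t) :
    Lev π t' S (p * n) (w ^ p) := by
  refine ⟨hw.fn.pow p, ?_, cmap_pow_ne (S := S) hr hw.ne p⟩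
  obtain ⟨x, b, hxb, hx, hb⟩ := hw.d.split hw.fn.1
  rw [map_pow, hxb]
  obtain ⟨s, hs⟩ := exists_add_pow_prime_eq hp x (HahnSeries.C (π ^ t) * b)
  rw [hs]
  refine (D.add ?_ ?_).add ?_
  · exact D.of_ge ((hx.pow p).mono (by push_cast; exact le_rfl))
  · rw [mul_pow, ← map_pow, ← pow_mul, mul_comm t p]
    exact D.C_mul.of_dvd (pow_dvd_pow π h2)
  · have h3 : (p : LaurentSeries V) = HahnSeries.C (p : V) := by simp
    rw [h3, hpe]
    have h4 : HahnSeries.C (ε * π ^ e) * x * (HahnSeries.C (π ^ t) * b) * s =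
        HahnSeries.C (π ^ (t + e)) * (HahnSeries.C ε * (x * b * s)) := by
      rw [map_mul, pow_add, map_mul]; ring
    rw [h4]
    exact D.C_mul.of_dvd (pow_dvd_pow π h1)

end dvr

end H12UBI
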