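import Pool.Agent.Helper12_UBI.Alg

/-!
The local theorem: over a discrete valuation ring with finite residue field and ramification
index `e` over `p`, the least order is at most `2 e ((g+1) q^(3g+1) + g)`.
-/

open Polynomial

namespace H12UBI

open H58UB

section dvr

variable {V : Type*} [CommRing V] [IsDomain V] [IsDiscreteValuationRing V] {g : ℕ} {h r : V[X]}

theorem lev_one {S : Shape g h r} {π : V} (hπ : Irreducible π) {n : ℕ} (hU : U (smap S (IsLocalRing.residue V)) n) :
    ∃ w, Lev π 1 S n w := by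
  obtain ⟨v, hv, hv0, hv1⟩ := hU
  have hfn : Fn (smap S (IsLocalRing.residue V)) n v := ⟨hv0.mono (by omega), hv1⟩
  obtain ⟨w, hw, hwv⟩ := Fn.lift (S := S) (IsLocalRing.residue V) IsLocalRing.residue_surjective hfn
  refine ⟨w, hw, ?_, by rw [hwv]; exact hv⟩
  intro j hj
  rw [pow_one, ← residue_eq_zero_iff' hπ, ← coeff_lmap, lmap_e0, hwv]
  exact hv0 j hj

theorem local_bound [Finite (IsLocalRing.ResidueField V)] {S : Shape g h r} (hr : r.map (IsLocalRing.residue V) ≠ 0)
    {π : V} (hπ : Irreducible π) {p : ℕ} (hp : p.Prime) {e : ℕ} (he : 0 < e) {ε : V}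
    (hε : IsUnit ε) (hpe : (p : V) = ε * π ^ e) (hU : ∃ N, 0 < N ∧ U S N) :
    ∃ N, 0 < N ∧ N ≤ ((g + 1) * Nat.card (IsLocalRing.ResidueField V) ^ (3 * g + 1) + g) * (2 * e)
      ∧ U S N := by
  classical
  obtain ⟨hN0, hN⟩ := Nat.find_spec hU
  have hmin : ∀ n, 0 < n → n < Nat.find hU → ¬ U S n := by
    intro n hn hlt h1
    exact Nat.find_min hU hlt ⟨hn, h1⟩
  set N := Nat.find hU with hNdef
  obtain ⟨u, hu, hu0, hu1⟩ := exists_primitive hπ hN
  have hUkN : U (smap S (IsLocalRing.residue V)) N := by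
    refine ⟨cmap (IsLocalRing.residue V) h r u, hu, ?_, ?_⟩
    · rw [← lmap_e0 S]; exact ge_lmap hu0 _
    · rw [← lmap_e1 S]; exact ge_lmap hu1 _
  have hexk : ∃ m, 0 < m ∧ U (smap S (IsLocalRing.residue V)) m := ⟨N, hN0, hUkN⟩
  obtain ⟨hm0, hm⟩ := Nat.find_spec hexk
  have hmmin : ∀ n, 0 < n → n < Nat.find hexk → ¬ U (smap S (IsLocalRing.residue V)) n := by
    intro n hn hlt h1
    exact Nat.find_min hexk hlt ⟨hn, h1⟩
  have hmB : Nat.find hexk ≤
      (g + 1) * Nat.card (IsLocalRing.ResidueField V) ^ (3 * g + 1) + g := by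
    obtain ⟨m', hm'0, hm'B, hm'⟩ := exists_unit (smap S (IsLocalRing.residue V)) hr
    exact le_trans (Nat.find_min' hexk ⟨hm'0, hm'⟩) hm'B
  set m := Nat.find hexk with hmdef
  have hdvd : m ∣ N := by
    rw [Nat.dvd_iff_mod_eq_zero]
    by_contra hne
    exact hmmin _ (Nat.pos_of_ne_zero hne) (Nat.mod_lt _ hm0) (hUkN.mod hr hm)
  obtain ⟨M, hM⟩ := hdvd
  have hM0 : M ≠ 0 := by
    rintro rfl
    rw [mul_zero] at hM
    omega
  obtain ⟨w₁, hw₁⟩ := lev_one (S := S) hπ hm
  have hkey : ∀ {l : ℕ}, l.Prime → l ∣ M → l = p := by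
    intro l hl hlM
    by_contra hlp
    obtain ⟨M', rfl⟩ := hlM
    have hM'0 : M' ≠ 0 := by rintro rfl; simp at hM0
    have hlu : IsUnit (l : V) := by
      by_contra hnu
      have h1 : π ∣ (l : V) := by
        rw [← residue_eq_zero_iff' hπ, IsLocalRing.residue_eq_zero_iff]
        exact (IsLocalRing.mem_maximalIdeal _).2 hnu
      have h2 : π ∣ (p : V) := by
        rw [hpe]
        exact dvd_mul_of_dvd_right (dvd_pow_self π he.ne') ε
      have h3 : IsCoprime (l : ℤ) (p : ℤ) :=
        Nat.isCoprime_iff_coprime.2 ((Nat.coprime_primes hl hp).2 hlp)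
      obtain ⟨a, b, hab⟩ := h3
      have h4 : (a : V) * (l : V) + (b : V) * (p : V) = 1 := by
        have := congrArg (Int.cast : ℤ → V) hab
        push_cast at this
        exact this
      have h5 : π ∣ 1 := by
        rw [← h4]
        exact dvd_add (dvd_mul_of_dvd_right h1 _) (dvd_mul_of_dvd_right h2 _)
      exact hπ.not_isUnit (isUnit_of_dvd_one h5)
    obtain ⟨w, hw⟩ := lev_one (S := S) hπ (hm.mul hr M')
    have hNl : N = l * (M' * m) := by rw [hM]; ring
    have h6 := steps (n := M' * m) (t := 1) (e := 0) hr hπ hl hlu (by rw [pow_zero, mul_one])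
      (by have := hl.two_le; omega) hu (by rw [← hNl]; exact hu0) (by rw [← hNl]; exact hu1) hw
    refine hmin (M' * m) (Nat.mul_pos (Nat.pos_of_ne_zero hM'0) hm0) ?_ (U_of_lev hπ h6)
    have h7 : 0 < M' * m := Nat.mul_pos (Nat.pos_of_ne_zero hM'0) hm0
    have h8 := hl.two_le
    rw [hNl]
    nlinarith
  have hMp := Nat.eq_prime_pow_of_unique_prime_dvd hM0 hkey
  generalize M.primeFactorsList.length = a at hMp
  have hlev : ∀ b : ℕ, ∃ t w, Lev π t S (p ^ b * m) w ∧ (p ^ b ≤ t ∨ t + e < p * t) := by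
    intro b
    induction b with
    | zero => exact ⟨1, w₁, by rw [pow_zero, one_mul]; exact hw₁, Or.inl (by simp)⟩
    | succ b ih =>
      obtain ⟨t, w, hw, ht⟩ := ih
      have hpb : p ^ (b + 1) * m = p * (p ^ b * m) := by ring
      rw [hpb]
      by_cases h1 : t + e < p * t
      · exact ⟨t, w ^ p, hw.pow hp hpe hr (by omega) (by omega), Or.inr h1⟩
      · have h2 : p ^ b ≤ t := by
          rcases ht with h | h
          · exact h
          · exact absurd h h1
        refine ⟨p * t, w ^ p, hw.pow hp hpe hr (by omega) le_rfl, Or.inl ?_⟩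
        rw [pow_succ']
        exact Nat.mul_le_mul_left p h2
  have hM2 : M ≤ 2 * e := by
    rcases Nat.eq_zero_or_pos a with ha | ha
    · rw [hMp, ha, pow_zero]; omega
    · obtain ⟨b, rfl⟩ : ∃ b, a = b + 1 := ⟨a - 1, by omega⟩
      obtain ⟨t, w, hw, ht⟩ := hlev b
      have hNp : N = p * (p ^ b * m) := by rw [hM, hMp]; ring
      have hpos : 0 < p ^ b * m := Nat.mul_pos (pow_pos hp.pos b) hm0
      have h1 : ¬ t + e < p * t := by
        intro h1
        have h6 := steps (n := p ^ b * m) hr hπ hp hε hpe h1 hu (by rw [← hNp]; exact hu0)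
          (by rw [← hNp]; exact hu1) hw
        refine hmin (p ^ b * m) hpos ?_ (U_of_lev hπ h6)
        have h8 := hp.two_le
        rw [hNp]
        nlinarith
      have h2 : p ^ b ≤ t := by
        rcases ht with h | h
        · exact h
        · exact absurd h h1
      have h3 : 2 * t ≤ p * t := Nat.mul_le_mul_right t hp.two_le
      rw [hMp, pow_succ']
      have h4 : p * p ^ b ≤ p * t := Nat.mul_le_mul_left p h2
      omega
  refine ⟨N, hN0, ?_, hN⟩
  rw [hM]
  exact Nat.mul_le_mul hmB hM2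

end dvr

end H12UBI
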