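import Pool.Agent.Helper12_UBI.Local
import Pool.Agent.Helper12_UBI.Ext

/-!
The bound at a finite place of a number field, for integral data with a unit coefficient.
-/

open Polynomial NumberField IsDedekindDomain

namespace H12UBI

open H58UB

section nf

variable (E : Type*) [Field E] [NumberField E] (w : HeightOneSpectrum (𝓞 E)) {p : ℕ}
  (hp : p.Prime) (hpw : ((p : ℕ) : 𝓞 E) ∈ w.asIdeal)

include hp hpw

theorem absNorm_dvd : Ideal.absNorm (Ideal.span {((p : ℕ) : 𝓞 E)}) =
    p ^ (Module.finrank ℚ E) := by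
  rw [Ideal.absNorm_span_singleton]
  have h4 : ((p : ℕ) : 𝓞 E) = algebraMap ℤ (𝓞 E) p := by simp
  rw [h4, Algebra.norm_algebraMap, RingOfIntegers.rank, Int.natAbs_pow, Int.natAbs_natCast]

theorem card_le : Finite (𝓞 E ⧸ w.asIdeal) ∧
    Nat.card (𝓞 E ⧸ w.asIdeal) ≤ p ^ (Module.finrank ℚ E) := by
  have h1 : Ideal.absNorm w.asIdeal ≠ 0 := by
    rw [Ne, Ideal.absNorm_eq_zero_iff]
    exact w.ne_bot
  have hfin : Finite (𝓞 E ⧸ w.asIdeal) := Ideal.absNorm_ne_zero_iff _ |>.1 h1
  refine ⟨hfin, ?_⟩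
  have h2 : Ideal.absNorm w.asIdeal ∣ Ideal.absNorm (Ideal.span {((p : ℕ) : 𝓞 E)}) := by
    apply Ideal.absNorm_dvd_absNorm_of_le
    rw [Ideal.span_singleton_le_iff_mem]
    exact hpw
  have h5 : Nat.card (𝓞 E ⧸ w.asIdeal) = Ideal.absNorm w.asIdeal := by
    rw [Ideal.absNorm_apply, Submodule.cardQuot_apply]
  rw [h5]
  rw [absNorm_dvd E w hp hpw] at h2
  exact Nat.le_of_dvd (pow_pos hp.pos _) h2

/-- the ramification index is at most the degree -/
theorem exp_le {e : ℕ} (he : w.valuation E (p : E) ≤ WithZero.exp (-(e : ℤ))) :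
    e ≤ Module.finrank ℚ E := by
  have h1 : w.asIdeal ^ e ∣ Ideal.span {((p : ℕ) : 𝓞 E)} := by
    rw [← HeightOneSpectrum.intValuation_le_pow_iff_dvd,
      ← HeightOneSpectrum.valuation_of_algebraMap (K := E)]
    simpa using he
  have h2 := map_dvd Ideal.absNorm h1
  rw [map_pow, absNorm_dvd E w hp hpw] at h2
  have h3 : Ideal.absNorm w.asIdeal ∣ p ^ Module.finrank ℚ E := by
    have : Ideal.absNorm w.asIdeal ∣ Ideal.absNorm (Ideal.span {((p : ℕ) : 𝓞 E)}) := by
      apply Ideal.absNorm_dvd_absNorm_of_le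
      rw [Ideal.span_singleton_le_iff_mem]
      exact hpw
    rw [absNorm_dvd E w hp hpw] at this
    exact this
  obtain ⟨f, -, hf⟩ := (Nat.dvd_prime_pow hp).1 h3
  have hf0 : f ≠ 0 := by
    rintro rfl
    rw [pow_zero, Ideal.absNorm_eq_one_iff] at hf
    exact w.isPrime.ne_top hf
  rw [hf, ← pow_mul] at h2
  have h4 := (Nat.pow_dvd_pow_iff_le_right hp.one_lt).1 h2
  exact le_trans (Nat.le_mul_of_pos_left e (Nat.pos_of_ne_zero hf0)) h4

theorem nf_bound {g : ℕ} {h r : E[X]} {S : Shape g h r}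
    (hh : ∀ j, w.valuation E (h.coeff j) ≤ 1) (hr : ∀ j, w.valuation E (r.coeff j) ≤ 1) {i : ℕ}
    (hi : w.valuation E (r.coeff i) = 1) (hU : ∃ N, 0 < N ∧ U S N) :
    ∃ N, 0 < N ∧
      N ≤ ((g + 1) * (p ^ Module.finrank ℚ E) ^ (3 * g + 1) + g) * (2 * Module.finrank ℚ E) ∧
      U S N := by
  set V := HeightOneSpectrum.valuationSubringAtPrime E w with hV
  have hmax : w.asIdeal.IsMaximal := w.isMaximal
  have hloc : IsLocalization.AtPrime V w.asIdeal :=
    inferInstanceAs (IsLocalization w.asIdeal.primeCompl V)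
  have hdvr : IsDiscreteValuationRing V :=
    IsLocalization.AtPrime.isDiscreteValuationRing_of_dedekind_domain (𝓞 E) w.ne_bot V
  have hmem : ∀ x : E, x ∈ V ↔ w.valuation E x ≤ 1 := by
    intro x
    rw [hV, HeightOneSpectrum.valuationSubringAtPrime_eq_valuationSubring]
    exact Iff.rfl
  obtain ⟨hfin, hcard⟩ := card_le E w hp hpw
  let eq : (𝓞 E ⧸ w.asIdeal) ≃+* IsLocalRing.ResidueField V :=
    IsLocalization.AtPrime.equivQuotMaximalIdeal w.asIdeal V
  have hfin' : Finite (IsLocalRing.ResidueField V) := Finite.of_equiv _ eq.toEquiv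
  have hunit : ∀ x : V, IsUnit x → w.valuation E (x : E) = 1 := by
    intro x hx
    obtain ⟨y, hy⟩ := hx.exists_right_inv
    have h1 := (hmem x).1 x.2
    have h2 := (hmem y).1 y.2
    have h3 : w.valuation E (x : E) * w.valuation E (y : E) = 1 := by
      rw [← map_mul]
      have := congrArg (fun z : V => w.valuation E (z : E)) hy
      simpa using this
    exact le_antisymm h1 (by
      rw [← h3]
      exact mul_le_of_le_one_right' h2)
  have hunit' : ∀ x : V, w.valuation E (x : E) = 1 → IsUnit x := by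
    intro x hx
    have hx0 : (x : E) ≠ 0 := by
      intro h0
      rw [h0, map_zero] at hx
      exact zero_ne_one hx
    have h1 : (x : E)⁻¹ ∈ V := by
      rw [hmem, map_inv₀, hx, inv_one]
    refine IsUnit.of_mul_eq_one ⟨(x : E)⁻¹, h1⟩ ?_
    apply Subtype.ext
    exact mul_inv_cancel₀ hx0
  -- uniformizer
  obtain ⟨π, hπ⟩ := IsDiscreteValuationRing.exists_irreducible V
  have hp0 : (p : V) ≠ 0 := by
    intro h0
    have h1 := congrArg (fun z : V => (z : E)) h0
    have h2 : (p : E) = 0 := by simpa using h1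
    exact hp.ne_zero (by exact_mod_cast h2)
  obtain ⟨e, ε, hpe⟩ := IsDiscreteValuationRing.eq_unit_mul_pow_irreducible hp0 hπ
  have hvp : w.valuation E (p : E) < 1 := by
    have h1 : w.valuation E (algebraMap (𝓞 E) E ((p : ℕ) : 𝓞 E)) < 1 := by
      rw [HeightOneSpectrum.valuation_lt_one_iff_mem]
      exact hpw
    simpa using h1
  have hvp' : w.valuation E (p : E) = w.valuation E (π : E) ^ e := by
    have h1 := congrArg (fun z : V => w.valuation E (z : E)) hpe
    have h2 : w.valuation E (p : E) = w.valuation E ((ε : V) : E) * w.valuation E (π : E) ^ e := by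
      simpa using h1
    rw [h2, hunit _ ε.isUnit, one_mul]
  have he : 0 < e := by
    rcases Nat.eq_zero_or_pos e with h0 | h0
    · rw [h0, pow_zero] at hvp'
      exact absurd hvp' hvp.ne
    · exact h0
  have hπ1 : w.valuation E (π : E) ≤ WithZero.exp (-1) := by
    rw [← WithZero.lt_mul_exp_iff_le (by simp)]
    have : (WithZero.exp (-1 : ℤ)) * WithZero.exp (1 : ℤ) = 1 := by
      rw [← WithZero.exp_add]; simp
    rw [this]
    refine lt_of_le_of_ne ((hmem π).1 π.2) ?_
    intro h1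
    exact hπ.not_isUnit (hunit' π h1)
  have hen : e ≤ Module.finrank ℚ E := by
    refine exp_le E w hp hpw ?_
    rw [hvp']
    have h1 : (WithZero.exp (-(e : ℤ))) = WithZero.exp (-1 : ℤ) ^ e := by
      rw [← WithZero.exp_nsmul]
      simp
    rw [h1]
    exact pow_le_pow_left₀ (by simp) hπ1 e
  -- models over V
  have hlift : ∀ q : E[X], (∀ j, w.valuation E (q.coeff j) ≤ 1) →
      ∃ q' : V[X], q'.map (algebraMap V E) = q := by
    intro q hq
    refine (Polynomial.mem_lifts _).1 ((Polynomial.lifts_iff_coeff_lifts _).2 fun j => ?_)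
    exact ⟨⟨q.coeff j, (hmem _).2 (hq j)⟩, rfl⟩
  obtain ⟨h', rfl⟩ := hlift h hh
  obtain ⟨r', rfl⟩ := hlift r hr
  have hinj : Function.Injective (algebraMap V E) := IsFractionRing.injective V E
  have S' : Shape g h' r' := by
    refine ⟨?_, ?_, ?_⟩
    · exact (Function.Injective.monic_map_iff hinj).2 S.monic
    · rw [← S.deg, natDegree_map_eq_of_injective hinj]
    · have := S.degr
      rwa [natDegree_map_eq_of_injective hinj] at this
  have hred : r'.map (IsLocalRing.residue V) ≠ 0 := by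
    intro h0
    have h1 : IsLocalRing.residue V (r'.coeff i) = 0 := by
      rw [← coeff_map, h0, coeff_zero]
    rw [IsLocalRing.residue_eq_zero_iff, IsLocalRing.mem_maximalIdeal, mem_nonunits_iff] at h1
    apply h1
    apply hunit'
    rw [coeff_map] at hi
    exact hi
  obtain ⟨N, hN0, hN⟩ := hU
  obtain ⟨N', hN'0, hN'B, hN'⟩ := local_bound (S := S') hred hπ hp he ε.isUnit hpe
    ⟨N, hN0, U.of_frac (E := E) (S := S') hN⟩
  refine ⟨N', hN'0, hN'B.trans ?_, hN'.map (algebraMap V E) hinj⟩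
  have hcard' : Nat.card (IsLocalRing.ResidueField V) ≤ p ^ Module.finrank ℚ E := by
    rw [← Nat.card_congr eq.toEquiv]
    exact hcard
  gcongr

end nf

end H12UBI
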