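import Pool.Agent.Helper12_UBI.Glue

/-!
The divisor class group of the smooth projective model of `y² + h(x) y = r(x)` and the class of
the difference of the two points at infinity.
-/

open Polynomial NumberField IsDedekindDomain

namespace H12UBI

open H58UB

/-- The field `K((t))` of Laurent series. -/
def Lau (K : Type) [Field K] : Type := LaurentSeries K

noncomputable instance instFieldLau (K : Type) [Field K] : Field (Lau K) := by
  change Field (LaurentSeries K)
  infer_instance

/-- The order in `t` of a Laurent series. -/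
noncomputable def Lau.ord {K : Type} [Field K] (s : Lau K) : ℤ :=
  HahnSeries.order (show LaurentSeries K from s)

/-- The substitution `x ↦ 1/t`, a ring homomorphism `K[x] → K((t))`. -/
noncomputable def iota (K : Type) [Field K] : K[X] →+* Lau K :=
  eval₂RingHom (HahnSeries.C) (HahnSeries.single (-1 : ℤ) (1 : K))

/-- The hyperelliptic curve `y² + h(x) y = r(x)` of genus `g` over `K`: `h` is monic of degree
`g + 1`, `r` has degree at most `g` and `h² + 4 r` is squarefree. -/
structure Curve (g : ℕ) (K : Type) [Field K] where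
  h : K[X]
  r : K[X]
  monic : h.Monic
  deg_h : h.natDegree = g + 1
  deg_r : r.natDegree ≤ g
  sqfree : Squarefree (h ^ 2 + 4 * r)

namespace Curve

variable {g : ℕ} {K : Type} [Field K] (C : Curve g K)

theorem shape : Shape g C.h C.r := ⟨C.monic, C.deg_h, C.deg_r⟩

/-- The coordinate ring `K[x, y] / (y² + h y - r)` of the affine curve (free over `K[x]` with
basis `1, y`, and `y² = r - h y`). -/
abbrev R : Type := QuadraticAlgebra K[X] C.r (-C.h)

theorem r_ne_zero : C.r ≠ 0 := by
  intro h0
  have h1 := C.sqfree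
  rw [h0, mul_zero, add_zero] at h1
  have h2 : IsUnit C.h := h1 C.h (by rw [pow_two])
  have h3 := natDegree_eq_zero_of_isUnit h2
  rw [C.shape.deg] at h3
  omega

instance instIsDomainR : IsDomain C.R := by
  have := cr_noZeroDivisors C.shape C.r_ne_zero
  exact NoZeroDivisors.to_isDomain _

/-- The function field of the curve. -/
def F : Type := FractionRing C.R

noncomputable instance instFieldF : Field C.F := by
  change Field (FractionRing C.R)
  infer_instance

noncomputable instance instAlgebraF : Algebra C.R C.F := by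
  change Algebra C.R (FractionRing C.R)
  infer_instance

instance instIsFractionRingF : IsFractionRing C.R C.F := by
  change IsFractionRing C.R (FractionRing C.R)
  infer_instance

/-- A polynomial in `x` as a rational function on the curve. -/
noncomputable def ofPoly (q : K[X]) : C.F := algebraMap C.R C.F ⟨q, 0⟩

/-- The rational function `y` on the curve. -/
noncomputable def y : C.F := algebraMap C.R C.F ⟨0, 1⟩

theorem e0_injective : Function.Injective (e0 C.shape) := by
  rw [injective_iff_map_eq_zero]
  intro u hu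
  by_contra h
  exact e0_ne_zero (S := C.shape) C.r_ne_zero h hu

theorem e1_injective : Function.Injective (e1 C.shape) := by
  rw [injective_iff_map_eq_zero]
  intro u hu
  rw [← e0_star] at hu
  have := C.e0_injective (hu.trans (map_zero _).symm)
  simpa using congrArg star this

theorem order_eq {s : LaurentSeries K} {n : ℤ} (h : Ge n s) (hn : s.coeff n ≠ 0) :
    s.order = n := by
  refine le_antisymm (HahnSeries.order_le_of_coeff_ne_zero hn) ?_
  exact le_of_ge h (HahnSeries.coeff_order_eq_zero.not.2 (HahnSeries.ne_zero_of_coeff_ne_zero hn))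

theorem ge_order (s : LaurentSeries K) : Ge s.order s := fun _ hj =>
  HahnSeries.coeff_eq_zero_of_lt_order hj

theorem le_order {s : LaurentSeries K} (hs : s ≠ 0) {n : ℤ} (h : Ge n s) : n ≤ s.order :=
  le_of_ge h (HahnSeries.coeff_order_eq_zero.not.2 hs)

theorem e_poly0 (q : K[X]) : e0 C.shape (⟨q, 0⟩ : CR K C.h C.r) = ex K q := by
  rw [e0_apply]; simp

theorem e_poly1 (q : K[X]) : e1 C.shape (⟨q, 0⟩ : CR K C.h C.r) = ex K q := by
  rw [e1_apply]; simp

theorem y0_ne_zero : y0 C.shape ≠ 0 := by
  intro h0
  have h1 := y0_eq C.shape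
  rw [h0, mul_zero, pow_two, mul_zero, add_zero] at h1
  exact C.r_ne_zero (ex_injective (h1.symm.trans (map_zero _).symm))

/-- The point at infinity at which `y` vanishes. -/
theorem exists_E0 : ∃ E : C.F →+* Lau K, (∀ q, E (C.ofPoly q) = iota K q) ∧ 0 < (E C.y).ord := by
  let E : C.F →+* LaurentSeries K := IsFractionRing.lift C.e0_injective
  have hE : ∀ u : C.R, E (algebraMap C.R C.F u) = e0 C.shape u :=
    fun u => IsFractionRing.lift_algebraMap _ _
  refine ⟨E, ?_, ?_⟩
  · intro q
    exact (hE _).trans (C.e_poly0 q)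
  · have h1 : E C.y = y0 C.shape := by
      refine (hE _).trans ?_
      rw [e0_apply]; simp
    have h2 : (1 : ℤ) ≤ (y0 C.shape).order := le_order C.y0_ne_zero (ge_y0 C.shape)
    change 0 < HahnSeries.order (E C.y)
    rw [h1]
    omega

/-- The point at infinity at which `y + h` vanishes. -/
theorem exists_E1 : ∃ E : C.F →+* Lau K, (∀ q, E (C.ofPoly q) = iota K q) ∧
    0 < (E (C.y + C.ofPoly C.h)).ord := by
  let E : C.F →+* LaurentSeries K := IsFractionRing.lift C.e1_injective
  have hE : ∀ u : C.R, E (algebraMap C.R C.F u) = e1 C.shape u :=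
    fun u => IsFractionRing.lift_algebraMap _ _
  refine ⟨E, ?_, ?_⟩
  · intro q
    exact (hE _).trans (C.e_poly1 q)
  · have h1 : E (C.y + C.ofPoly C.h) = - y0 C.shape := by
      rw [map_add]
      have h2 : E C.y = -ex K C.h - y0 C.shape := by
        refine (hE _).trans ?_
        rw [e1_apply]; simp
      have h3 : E (C.ofPoly C.h) = ex K C.h := (hE _).trans (C.e_poly1 C.h)
      rw [h2, h3]; ring
    have h2 : (1 : ℤ) ≤ (-y0 C.shape).order :=
      le_order (neg_ne_zero.2 C.y0_ne_zero) (ge_y0 C.shape).neg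
    change 0 < HahnSeries.order (E (C.y + C.ofPoly C.h))
    rw [h1]
    omega

/-- The embedding of the function field into `K((t))` given by the point at infinity `∞₀` at
which `y` vanishes: `x ↦ 1/t`, and `y` goes to a series of positive order. -/
noncomputable def E0 : C.F →+* Lau K := Classical.choose C.exists_E0

/-- The embedding given by the point at infinity `∞₁` at which `y + h` vanishes. -/
noncomputable def E1 : C.F →+* Lau K := Classical.choose C.exists_E1

theorem E0_algebraMap (u : CR K C.h C.r) : C.E0 (algebraMap C.R C.F u) = e0 C.shape u := by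
  obtain ⟨h1, h2⟩ := Classical.choose_spec C.exists_E0
  have hr : (C.y) ^ 2 + C.ofPoly C.h * C.y = C.ofPoly C.r := by
    change algebraMap C.R C.F _ ^ 2 + algebraMap C.R C.F _ * algebraMap C.R C.F _ =
      algebraMap C.R C.F _
    rw [← map_pow, ← map_mul, ← map_add]
    congr 1
    change (⟨0, 1⟩ : CR K C.h C.r) ^ 2 + (⟨C.h, 0⟩ : CR K C.h C.r) * ⟨0, 1⟩ = ⟨C.r, 0⟩
    refine QuadraticAlgebra.ext ?_ ?_
    · rw [pow_two, QuadraticAlgebra.re_add, QuadraticAlgebra.re_mul, QuadraticAlgebra.re_mul]
      simp
    · rw [pow_two, QuadraticAlgebra.im_add, QuadraticAlgebra.im_mul, QuadraticAlgebra.im_mul]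
      simp
  have h3 := congrArg C.E0 hr
  rw [map_add, map_mul, map_pow] at h3
  have h4 : (show LaurentSeries K from C.E0 C.y) = y0 C.shape := by
    refine unique_y0 C.shape ?_ (ge_y0 _) ?_ (y0_eq _)
    · have h5 : (0 : ℤ) < HahnSeries.order (show LaurentSeries K from C.E0 C.y) := h2
      exact (ge_order _).mono (by omega)
    · have h6 : C.E0 (C.ofPoly C.h) = ex K C.h := h1 C.h
      have h7 : C.E0 (C.ofPoly C.r) = ex K C.r := h1 C.r
      rw [h6, h7] at h3
      exact h3
  have h5 : u = (⟨u.re, 0⟩ : CR K C.h C.r) + (⟨u.im, 0⟩ : CR K C.h C.r) * ⟨0, 1⟩ := by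
    refine QuadraticAlgebra.ext ?_ ?_
    · rw [QuadraticAlgebra.re_add, QuadraticAlgebra.re_mul]; simp
    · rw [QuadraticAlgebra.im_add, QuadraticAlgebra.im_mul]; simp
  have h6 : algebraMap C.R C.F u = C.ofPoly u.re + C.ofPoly u.im * C.y := by
    change algebraMap C.R C.F u = algebraMap C.R C.F _ + algebraMap C.R C.F _ *
      algebraMap C.R C.F _
    rw [← map_mul, ← map_add]
    congr 1
  rw [h6, map_add, map_mul, e0_apply, ← h4]
  have h8 : C.E0 (C.ofPoly u.re) = ex K u.re := h1 _
  have h9 : C.E0 (C.ofPoly u.im) = ex K u.im := h1 _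
  rw [h8, h9]
  rfl

theorem E1_algebraMap (u : CR K C.h C.r) : C.E1 (algebraMap C.R C.F u) = e1 C.shape u := by
  obtain ⟨h1, h2⟩ := Classical.choose_spec C.exists_E1
  have hr : (C.y + C.ofPoly C.h) ^ 2 = C.ofPoly C.h * (C.y + C.ofPoly C.h) + C.ofPoly C.r := by
    change (algebraMap C.R C.F _ + algebraMap C.R C.F _) ^ 2 = algebraMap C.R C.F _ *
      (algebraMap C.R C.F _ + algebraMap C.R C.F _) + algebraMap C.R C.F _
    rw [← map_add, ← map_pow, ← map_mul, ← map_add]
    congr 1
    change ((⟨0, 1⟩ : CR K C.h C.r) + (⟨C.h, 0⟩ : CR K C.h C.r)) ^ 2 =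
      (⟨C.h, 0⟩ : CR K C.h C.r) * ((⟨0, 1⟩ : CR K C.h C.r) + (⟨C.h, 0⟩ : CR K C.h C.r)) +
        ⟨C.r, 0⟩
    refine QuadraticAlgebra.ext ?_ ?_
    · rw [pow_two, QuadraticAlgebra.re_add, QuadraticAlgebra.re_mul, QuadraticAlgebra.re_mul]
      simp
    · rw [pow_two, QuadraticAlgebra.im_add, QuadraticAlgebra.im_mul, QuadraticAlgebra.im_mul]
      simp
  have h3 := congrArg C.E1 hr
  rw [map_add, map_mul, map_pow] at h3
  have h6 : C.E1 (C.ofPoly C.h) = ex K C.h := h1 C.h
  have h7 : C.E1 (C.ofPoly C.r) = ex K C.r := h1 C.r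
  have h4 : -(show LaurentSeries K from C.E1 (C.y + C.ofPoly C.h)) = y0 C.shape := by
    refine unique_y0 C.shape ?_ (ge_y0 _) ?_ (y0_eq _)
    · have h5 : (0 : ℤ) < HahnSeries.order
          (show LaurentSeries K from C.E1 (C.y + C.ofPoly C.h)) := h2
      exact ((ge_order _).mono (by omega)).neg
    · rw [h6, h7] at h3
      have h8 : (show LaurentSeries K from C.E1 (C.y + C.ofPoly C.h)) ^ 2 =
        ex K C.h * (show LaurentSeries K from C.E1 (C.y + C.ofPoly C.h)) + ex K C.r := h3
      linear_combination h8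
  have h5 : u = (⟨u.re - C.h * u.im, 0⟩ : CR K C.h C.r) +
      (⟨u.im, 0⟩ : CR K C.h C.r) * ((⟨0, 1⟩ : CR K C.h C.r) + ⟨C.h, 0⟩) := by
    refine QuadraticAlgebra.ext ?_ ?_
    · rw [QuadraticAlgebra.re_add, QuadraticAlgebra.re_mul, QuadraticAlgebra.re_add,
        QuadraticAlgebra.im_add]
      simp
      ring
    · rw [QuadraticAlgebra.im_add, QuadraticAlgebra.im_mul, QuadraticAlgebra.re_add,
        QuadraticAlgebra.im_add]
      simp
  have h6' : algebraMap C.R C.F u = C.ofPoly (u.re - C.h * u.im) +
      C.ofPoly u.im * (C.y + C.ofPoly C.h) := by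
    change algebraMap C.R C.F u = algebraMap C.R C.F _ + algebraMap C.R C.F _ *
      (algebraMap C.R C.F _ + algebraMap C.R C.F _)
    rw [← map_add, ← map_mul, ← map_add]
    congr 1
  rw [h6', map_add, map_mul, e1_apply]
  have h8 : C.E1 (C.ofPoly (u.re - C.h * u.im)) = ex K (u.re - C.h * u.im) := h1 _
  have h9 : C.E1 (C.ofPoly u.im) = ex K u.im := h1 _
  rw [h8, h9]
  have h10 : (show LaurentSeries K from C.E1 (C.y + C.ofPoly C.h)) = - y0 C.shape := by
    rw [← h4, neg_neg]
  change ex K (u.re - C.h * u.im) + ex K u.im *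
    (show LaurentSeries K from C.E1 (C.y + C.ofPoly C.h)) = _
  rw [h10, map_sub, map_mul]
  ring

/-- The order of vanishing of a rational function at the point given by `E`. -/
noncomputable def ordAt (E : C.F →+* Lau K) : C.Fˣ →* Multiplicative ℤ where
  toFun f := Multiplicative.ofAdd (E f).ord
  map_one' := by
    rw [Units.val_one, map_one]
    change Multiplicative.ofAdd (HahnSeries.order (1 : LaurentSeries K)) = 1
    rw [HahnSeries.order_one]
    rfl
  map_mul' f f' := by
    have h1 : (show LaurentSeries K from E f) ≠ 0 := (map_ne_zero_iff _ E.injective).2 f.ne_zero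
    have h2 : (show LaurentSeries K from E f') ≠ 0 :=
      (map_ne_zero_iff _ E.injective).2 f'.ne_zero
    rw [Units.val_mul, map_mul]
    change Multiplicative.ofAdd (HahnSeries.order ((show LaurentSeries K from E f) *
      (show LaurentSeries K from E f'))) = _
    rw [HahnSeries.order_mul h1 h2, ofAdd_add]
    rfl

/-- The nonzero fractional ideals of the coordinate ring, i.e. the divisors on the affine
curve. -/
def Ideals : Type := (FractionalIdeal (nonZeroDivisors C.R) C.F)ˣ

noncomputable instance instCommGroupIdeals : CommGroup C.Ideals := by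
  change CommGroup (FractionalIdeal (nonZeroDivisors C.R) C.F)ˣ
  infer_instance

/-- The principal fractional ideals. -/
noncomputable def principal : C.Fˣ →* C.Ideals := toPrincipalIdeal C.R C.F

/-- Divisors on the smooth projective curve: a divisor on the affine curve and the
multiplicities of `∞₀` and `∞₁` (written multiplicatively). -/
def Divisor : Type := C.Ideals × Multiplicative ℤ × Multiplicative ℤ

noncomputable instance instCommGroupDivisor : CommGroup C.Divisor := by
  change CommGroup (C.Ideals × Multiplicative ℤ × Multiplicative ℤ)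
  infer_instance

/-- The divisor of a rational function. -/
noncomputable def divOf : C.Fˣ →* C.Divisor :=
  C.principal.prod ((C.ordAt C.E0).prod (C.ordAt C.E1))

/-- The divisor class group. -/
def Pic : Type := C.Divisor ⧸ C.divOf.range

noncomputable instance instCommGroupPic : CommGroup C.Pic := by
  change CommGroup (C.Divisor ⧸ C.divOf.range)
  infer_instance

/-- The class of a divisor. -/
noncomputable def cls : C.Divisor →* C.Pic := QuotientGroup.mk' C.divOf.range

/-- The divisor `a ∞₀ + b ∞₁`. -/
noncomputable def atInfty (a b : ℤ) : C.Divisor :=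
  ((1 : C.Ideals), Multiplicative.ofAdd a, Multiplicative.ofAdd b)

/-- The class of `∞₀ - ∞₁`. -/
noncomputable def infty : C.Pic := C.cls (C.atInfty 1 (-1))

theorem atInfty_pow (a b : ℤ) (n : ℕ) : C.atInfty a b ^ n = C.atInfty (n * a) (n * b) := by
  change ((1, Multiplicative.ofAdd a, Multiplicative.ofAdd b) :
    C.Ideals × Multiplicative ℤ × Multiplicative ℤ) ^ n =
      ((1, Multiplicative.ofAdd (n * a), Multiplicative.ofAdd (n * b)) :
    C.Ideals × Multiplicative ℤ × Multiplicative ℤ)
  refine Prod.ext ?_ (Prod.ext ?_ ?_)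
  · simp
  · simp only [Prod.pow_snd, Prod.pow_fst]
    rw [← ofAdd_nsmul]
    simp
  · simp only [Prod.pow_snd]
    rw [← ofAdd_nsmul]
    simp

theorem infty_pow_eq_one_iff (n : ℕ) : C.infty ^ n = 1 ↔ U C.shape n := by
  have hp : C.infty ^ n = C.cls (C.atInfty n (-n)) := by
    rw [infty, ← map_pow, atInfty_pow]
    congr 2
    · simp
    · simp
  have hq : C.cls (C.atInfty n (-n)) = 1 ↔ C.atInfty n (-n) ∈ C.divOf.range :=
    QuotientGroup.eq_one_iff _
  rw [hp, hq, MonoidHom.mem_range]
  constructor
  · rintro ⟨f, hf⟩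
    have h1 : toPrincipalIdeal C.R C.F f = 1 := congrArg Prod.fst hf
    have h2 : HahnSeries.order (show LaurentSeries K from C.E0 f) = n :=
      Multiplicative.ofAdd.injective (congrArg (fun x => x.2.1) hf)
    have h3 : HahnSeries.order (show LaurentSeries K from C.E1 f) = -(n : ℤ) :=
      Multiplicative.ofAdd.injective (congrArg (fun x => x.2.2) hf)
    rw [toPrincipalIdeal_eq_iff] at h1
    have h4 : (f : C.F) ∈ FractionalIdeal.spanSingleton (nonZeroDivisors C.R) (f : C.F) :=
      FractionalIdeal.mem_spanSingleton_self _ _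
    rw [h1, Units.val_one, FractionalIdeal.mem_one_iff] at h4
    obtain ⟨u, hu⟩ := h4
    have hu0 : u ≠ 0 := by
      rintro rfl
      rw [map_zero] at hu
      exact f.ne_zero hu.symm
    refine ⟨u, hu0, ?_, ?_⟩
    · rw [← E0_algebraMap, hu, ← h2]
      exact ge_order _
    · rw [← E1_algebraMap, hu, ← h3]
      exact ge_order _
  · rintro ⟨u, hu, h0, h1⟩
    obtain ⟨c, hc, hN, hcc⟩ := U_spec C.r_ne_zero hu h0 h1
    have hf0 : algebraMap C.R C.F u ≠ 0 := by
      rw [Ne, map_eq_zero_iff _ (IsFractionRing.injective C.R C.F)]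
      exact hu
    refine ⟨Units.mk0 _ hf0, Prod.ext ?_ (Prod.ext ?_ ?_)⟩
    · change toPrincipalIdeal C.R C.F _ = 1
      rw [toPrincipalIdeal_eq_iff, Units.val_one, Units.val_mk0]
      have huu : ∃ v : C.R, v * u = 1 := by
        refine ⟨(star u * cst _ _ c⁻¹ : CR K C.h C.r), ?_⟩
        change (star u * cst _ _ c⁻¹ * u : CR K C.h C.r) = 1
        have h5 : star u * cst C.h C.r c⁻¹ * u = u * star u * cst C.h C.r c⁻¹ := by ring
        rw [h5, ← QuadraticAlgebra.algebraMap_norm_eq_mul_star, hN]
        change cst C.h C.r c * cst _ _ c⁻¹ = 1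
        rw [← map_mul, mul_inv_cancel₀ hc, map_one]
      obtain ⟨v, hv⟩ := huu
      apply le_antisymm
      · rw [FractionalIdeal.spanSingleton_le_iff_mem, FractionalIdeal.mem_one_iff]
        exact ⟨_, rfl⟩
      · rw [← FractionalIdeal.spanSingleton_one, FractionalIdeal.spanSingleton_le_iff_mem,
          FractionalIdeal.mem_spanSingleton]
        refine ⟨v, ?_⟩
        rw [Algebra.smul_def, ← map_mul, hv, map_one]
    · change Multiplicative.ofAdd (HahnSeries.order
        (show LaurentSeries K from C.E0 (algebraMap C.R C.F u))) = _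
      rw [E0_algebraMap]
      have h5 : HahnSeries.order (e0 C.shape u) = n := by
        refine order_eq h0 ?_
        intro h2
        rw [h2, zero_mul] at hcc
        exact hc hcc.symm
      exact congrArg Multiplicative.ofAdd h5
    · change Multiplicative.ofAdd (HahnSeries.order
        (show LaurentSeries K from C.E1 (algebraMap C.R C.F u))) = _
      rw [E1_algebraMap]
      have h5 : HahnSeries.order (e1 C.shape u) = -(n : ℤ) := by
        refine order_eq h1 ?_
        intro h2
        rw [h2, mul_zero] at hcc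
        exact hc hcc.symm
      exact congrArg Multiplicative.ofAdd h5

end Curve

/-- The absolute value at a finite place. -/
noncomputable def vabs {K : Type} [Field K] [NumberField K] (v : HeightOneSpectrum (𝓞 K)) (a : K) :
    WithZero (Multiplicative ℤ) := v.valuation K a

theorem orderOf_le {K : Type} [Field K] [NumberField K] {g d p : ℕ} (hp : p.Prime)
    (hd : Module.finrank ℚ K ≤ d) (C : Curve g K) {v : HeightOneSpectrum (𝓞 K)}
    (hv : ((p : ℕ) : 𝓞 K) ∈ v.asIdeal) (hD : Dom g C.h C.r v) :
    orderOf C.infty ≤ bd g (d * (2 * g + 2)) p := by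
  by_cases hfin : IsOfFinOrder C.infty
  · obtain ⟨n, hn, hn1⟩ := isOfFinOrder_iff_pow_eq_one.1 hfin
    obtain ⟨N, hN0, hNB, hN⟩ := dom_bound (S := C.shape) hp hd hv hD
      ⟨n, hn, (C.infty_pow_eq_one_iff n).1 hn1⟩
    exact (orderOf_le_of_pow_eq_one hN0 ((C.infty_pow_eq_one_iff N).2 hN)).trans hNB
  · rw [orderOf_eq_zero hfin]
    exact Nat.zero_le _

end H12UBI
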