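import Pool.Agent.Helper12_UBI.Fn

/-!
Over a finite field with `q` elements there is a unit of order at most `(g+1) q^(3g+1) + g`.
-/

open Polynomial

namespace H12UBI

open H58UB

section

variable {k : Type*} [Field k] {g : ℕ} {h r : k[X]}

theorem exists_order {s : LaurentSeries k} (hs : s ≠ 0) : ∃ o : ℤ, Ge o s ∧ s.coeff o ≠ 0 := by
  refine ⟨s.order, ?_, HahnSeries.coeff_order_eq_zero.not.2 hs⟩
  intro j hj
  exact HahnSeries.coeff_eq_zero_of_lt_order hj

theorem le_of_ge {s : LaurentSeries k} {n o : ℤ} (h : Ge n s) (ho : s.coeff o ≠ 0) : n ≤ o := by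
  by_contra hlt
  push Not at hlt
  exact ho (h o hlt)

theorem coeff_C_mul' {A : Type*} [CommRing A] (c : A) (s : LaurentSeries A) (j : ℤ) :
    (HahnSeries.C c * s).coeff j = c * s.coeff j := by
  rw [HahnSeries.C_apply, HahnSeries.coeff_single_mul, sub_zero]

/-- elements with many zeros at the first point at infinity -/
theorem exists_small (S : Shape g h r) (n : ℕ) (hn : 0 < n) :
    ∃ u : CR k h r, u ≠ 0 ∧ Ge (n : ℤ) (e0 S u) ∧ Ge (-((n + g : ℕ) : ℤ)) (e1 S u) := by
  let L : (degreeLT k n × degreeLT k n) →ₗ[k] (Fin (2 * n - 1) → k) :=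
    { toFun := fun p i => (ex k p.1.1 + ex k p.2.1 * y0 S).coeff ((i : ℕ) - ((n : ℤ) - 1))
      map_add' := by
        intro p q
        funext i
        simp only [Prod.fst_add, Prod.snd_add, Submodule.coe_add, map_add, Pi.add_apply, add_mul,
          HahnSeries.coeff_add]
        ring
      map_smul' := by
        intro c p
        funext i
        simp only [Prod.smul_fst, Prod.smul_snd, Submodule.coe_smul, smul_eq_C_mul, map_mul,
          ex_C, mul_assoc, HahnSeries.coeff_add, coeff_C_mul',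
          Pi.smul_apply, smul_eq_mul, RingHom.id_apply]
        ring }
  have hfin : Module.finrank k (degreeLT k n) = n := by
    rw [LinearEquiv.finrank_eq (degreeLTEquiv k n)]
    simp
  have := Module.Finite.equiv (degreeLTEquiv k n).symm
  have hker : LinearMap.ker L ≠ ⊥ := by
    refine LinearMap.ker_ne_bot_of_finrank_lt ?_
    rw [Module.finrank_prod, hfin, Module.finrank_fintype_fun_eq_card, Fintype.card_fin]
    omega
  obtain ⟨p, hp, hp0⟩ := (Submodule.ne_bot_iff _).1 hker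
  have hd1 : p.1.1.natDegree < n := by
    have h1 := mem_degreeLT.1 p.1.2
    by_cases h0 : p.1.1 = 0
    · rw [h0]; simpa using hn
    · exact (natDegree_lt_iff_degree_lt h0).2 h1
  have hd2 : p.2.1.natDegree < n := by
    have h1 := mem_degreeLT.1 p.2.2
    by_cases h0 : p.2.1 = 0
    · rw [h0]; simpa using hn
    · exact (natDegree_lt_iff_degree_lt h0).2 h1
  refine ⟨⟨p.1.1, p.2.1⟩, ?_, ?_, ?_⟩
  · intro h0
    apply hp0
    have h1 := congrArg QuadraticAlgebra.re h0
    have h2 := congrArg QuadraticAlgebra.im h0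
    exact Prod.ext (Subtype.ext h1) (Subtype.ext h2)
  · intro j hj
    rw [e0_apply]
    by_cases hj2 : j < -((n : ℤ) - 1)
    · have h1 : Ge (-((n - 1 : ℕ) : ℤ)) (ex k p.1.1) := ge_ex (by omega)
      have h2 : Ge (-((n - 1 : ℕ) : ℤ)) (ex k p.2.1) := ge_ex (by omega)
      exact (h1.add ((h2.mul (ge_y0 S)).mono (by omega))) j (by omega)
    · push Not at hj2
      have h1 := congrFun (LinearMap.mem_ker.1 hp) ⟨(j + ((n : ℤ) - 1)).toNat, by omega⟩
      change (ex k p.1.1 + ex k p.2.1 * y0 S).coeff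
        (((j + ((n : ℤ) - 1)).toNat : ℕ) - ((n : ℤ) - 1)) = 0 at h1
      have h3 : ((((j + ((n : ℤ) - 1)).toNat : ℕ) : ℤ) - ((n : ℤ) - 1)) = j := by omega
      rw [h3] at h1
      exact h1
  · rw [e1_apply]
    have h1 : Ge (-((n - 1 : ℕ) : ℤ)) (ex k p.1.1) := ge_ex (by omega)
    have h2 : Ge (-((n - 1 : ℕ) : ℤ)) (ex k p.2.1) := ge_ex (by omega)
    have h3 : Ge (-((g + 1 : ℕ) : ℤ)) (-ex k h - y0 S) :=
      ((ge_ex (le_of_eq S.deg)).neg).sub ((ge_y0 S).mono (by omega))
    exact (h1.mono (by omega)).add ((h2.mul h3).mono (by omega))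

theorem e0_ne_zero {S : Shape g h r} (hr : r ≠ 0) {u : CR k h r} (hu : u ≠ 0) :
    e0 S u ≠ 0 := by
  intro h0
  have h1 := e0_mul_e1 S u
  rw [h0, zero_mul] at h1
  have h2 : u.norm = 0 := ex_injective (by rw [← h1, map_zero])
  exact norm_ne_zero S hr hu h2

/-- orders of the pair of expansions of an element -/
theorem order_spec {S : Shape g h r} (hr : r ≠ 0) {n : ℕ} {u : CR k h r} (hu : u ≠ 0)
    (h0 : Ge (n : ℤ) (e0 S u)) (h1 : Ge (-((n + g : ℕ) : ℤ)) (e1 S u)) :
    ∃ o : ℤ, (n : ℤ) ≤ o ∧ o ≤ n + g ∧ u.norm.natDegree ≤ g ∧ Ge o (e0 S u) ∧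
      Ge (-(u.norm.natDegree : ℤ) - o) (e1 S u) := by
  obtain ⟨o, ho, hoc⟩ := exists_order (e0_ne_zero (S := S) hr hu)
  have hw := norm_ne_zero S hr hu
  have h2 : Ge (-(u.norm.natDegree : ℤ)) (e1 S u * e0 S u) := by
    rw [mul_comm, e0_mul_e1]
    exact ge_ex le_rfl
  have h3 := ge_of_mul ho (IsUnit.mk0 _ hoc) h2
  have h4 : (e1 S u).coeff (-(u.norm.natDegree : ℤ) - o) ≠ 0 := by
    intro h5
    have h6 := Ge.coeff_mul ho h3
    rw [e0_mul_e1, h5, mul_zero] at h6
    have h7 : o + (-(u.norm.natDegree : ℤ) - o) = -(u.norm.natDegree : ℤ) := by ring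
    rw [h7, coeff_ex_neg, coeff_natDegree, leadingCoeff_eq_zero] at h6
    exact hw h6
  have h5 := le_of_ge h0 hoc
  have h6 := le_of_ge h1 h4
  refine ⟨o, h5, by push_cast at h6; omega, ?_, ho, h3⟩
  push_cast at h6
  omega

theorem quotient_unit {S : Shape g h r} (hr : r ≠ 0) {u v : CR k h r} (hu : u ≠ 0) (hv : v ≠ 0)
    {o o' : ℤ} {δ : CR k h r}
    (hδ : v = u + algebraMap k[X] (CR k h r) u.norm * δ)
    (ho : Ge o (e0 S u)) (h1 : Ge (-(u.norm.natDegree : ℤ) - o) (e1 S u))
    (ho' : Ge o' (e0 S v)) (h1' : Ge (-(u.norm.natDegree : ℤ) - o') (e1 S v))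
    (hlt : o < o') : U S (o' - o).toNat := by
  have hdom := cr_noZeroDivisors S hr
  have hw := norm_ne_zero S hr hu
  set w := u.norm with hwdef
  have hθ : v * star u = algebraMap k[X] (CR k h r) w * (1 + δ * star u) := by
    have h2 := QuadraticAlgebra.algebraMap_norm_eq_mul_star u
    rw [← hwdef] at h2
    rw [mul_add, mul_one, h2]
    nth_rewrite 1 [hδ]
    rw [h2]
    ring
  have hex : ∀ p : k[X], e0 S (algebraMap k[X] (CR k h r) p) = ex k p := by
    intro p
    rw [e0_apply, QuadraticAlgebra.algebraMap_re, QuadraticAlgebra.algebraMap_im]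
    simp
  have hex1 : ∀ p : k[X], e1 S (algebraMap k[X] (CR k h r) p) = ex k p := by
    intro p
    rw [e1_apply, QuadraticAlgebra.algebraMap_re, QuadraticAlgebra.algebraMap_im]
    simp
  have hgw : Ge (-(w.natDegree : ℤ)) (ex k w) := ge_ex le_rfl
  have hcw : IsUnit ((ex k w).coeff (-(w.natDegree : ℤ))) := by
    rw [coeff_ex_neg, coeff_natDegree]
    exact IsUnit.mk0 _ (leadingCoeff_ne_zero.2 hw)
  have hnat : (((o' - o).toNat : ℕ) : ℤ) = o' - o := by omega
  refine ⟨1 + δ * star u, ?_, ?_, ?_⟩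
  · intro h0
    rw [h0, mul_zero] at hθ
    rcases mul_eq_zero.1 hθ with h2 | h2
    · exact hv h2
    · exact hu (by simpa using congrArg star h2)
  · have h2 := congrArg (e0 S) hθ
    rw [map_mul, map_mul, hex, e0_star, mul_comm (ex k w)] at h2
    have h3 : Ge (o' + (-(w.natDegree : ℤ) - o)) (e0 S (1 + δ * star u) * ex k w) := by
      rw [← h2]; exact ho'.mul h1
    exact (ge_of_mul hgw hcw h3).mono (by omega)
  · have h2 := congrArg (e1 S) hθ
    rw [map_mul, map_mul, hex1, e1_star, mul_comm (ex k w)] at h2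
    have h3 : Ge ((-(w.natDegree : ℤ) - o') + o) (e1 S (1 + δ * star u) * ex k w) := by
      rw [← h2]; exact h1'.mul ho
    exact (ge_of_mul hgw hcw h3).mono (by omega)

/-- PIG -/
theorem exists_unit [Finite k] (S : Shape g h r) (hr : r ≠ 0) :
    ∃ m : ℕ, 0 < m ∧ m ≤ (g + 1) * Nat.card k ^ (3 * g + 1) + g ∧ U S m := by
  classical
  have : Fintype k := Fintype.ofFinite k
  set Q := Nat.card k ^ (3 * g + 1) with hQ
  have hex : ∀ j : Fin (Q + 1), ∃ u : CR k h r, u ≠ 0 ∧
      Ge ((((g + 1) * (j.1 + 1) : ℕ)) : ℤ) (e0 S u) ∧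
      Ge (-((((g + 1) * (j.1 + 1)) + g : ℕ) : ℤ)) (e1 S u) := by
    intro j
    exact exists_small S _ (by positivity)
  choose u hu0 hu hu1 using hex
  have hos := fun j => order_spec (S := S) hr (hu0 j) (hu j) (hu1 j)
  choose o ho1 ho2 hdeg ho3 ho4 using hos
  let F : Fin (Q + 1) → (Fin (g + 1) → k) × (Fin g → k) × (Fin g → k) := fun j =>
    (fun i => (u j).norm.coeff i, fun i => ((u j).re % (u j).norm).coeff i,
      fun i => ((u j).im % (u j).norm).coeff i)
  have hcard : Fintype.card ((Fin (g + 1) → k) × (Fin g → k) × (Fin g → k)) <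
      Fintype.card (Fin (Q + 1)) := by
    simp only [Fintype.card_prod, Fintype.card_fun, Fintype.card_fin]
    rw [hQ, Nat.card_eq_fintype_card]
    have : Fintype.card k ^ (g + 1) * (Fintype.card k ^ g * Fintype.card k ^ g) =
        Fintype.card k ^ (3 * g + 1) := by
      rw [← pow_add, ← pow_add]
      congr 1
      ring
    omega
  obtain ⟨i, j, hij, hF⟩ := Fintype.exists_ne_map_eq_of_card_lt F hcard
  wlog hlt : i < j generalizing i j
  · exact this j i hij.symm hF.symm (lt_of_le_of_ne (not_lt.1 hlt) hij.symm)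
  have hF1 : (u i).norm = (u j).norm := by
    ext n
    rcases Nat.lt_or_ge n (g + 1) with hn | hn
    · exact congrFun (congrArg Prod.fst hF) ⟨n, hn⟩
    · rw [coeff_eq_zero_of_natDegree_lt (lt_of_le_of_lt (hdeg i) (by omega)),
        coeff_eq_zero_of_natDegree_lt (lt_of_le_of_lt (hdeg j) (by omega))]
  have hw := norm_ne_zero S hr (hu0 i)
  have hmod : ∀ (p : k[X]) (n : ℕ), g ≤ n → (p % (u i).norm).coeff n = 0 := by
    intro p n hn
    refine coeff_eq_zero_of_degree_lt ?_
    refine lt_of_lt_of_le (degree_mod_lt p hw) ?_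
    rw [degree_eq_natDegree hw]
    exact_mod_cast le_trans (hdeg i) hn
  have hF2 : (u i).re % (u i).norm = (u j).re % (u i).norm := by
    ext n
    rcases Nat.lt_or_ge n g with hn | hn
    · have := congrFun (congrArg (fun x => x.2.1) hF) ⟨n, hn⟩
      simpa [F, ← hF1] using this
    · rw [hmod _ n hn, hmod _ n hn]
  have hF3 : (u i).im % (u i).norm = (u j).im % (u i).norm := by
    ext n
    rcases Nat.lt_or_ge n g with hn | hn
    · have := congrFun (congrArg (fun x => x.2.2) hF) ⟨n, hn⟩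
      simpa [F, ← hF1] using this
    · rw [hmod _ n hn, hmod _ n hn]
  have hd1 : (u i).norm ∣ (u j).re - (u i).re := by
    refine EuclideanDomain.mod_eq_zero.1 ?_
    rw [Polynomial.sub_mod, ← hF2, sub_self]
  have hd2 : (u i).norm ∣ (u j).im - (u i).im := by
    refine EuclideanDomain.mod_eq_zero.1 ?_
    rw [Polynomial.sub_mod, ← hF3, sub_self]
  obtain ⟨a, ha⟩ := hd1
  obtain ⟨b, hb⟩ := hd2
  have hδ : u j = u i + algebraMap k[X] (CR k h r) (u i).norm * (⟨a, b⟩ : CR k h r) := by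
    refine QuadraticAlgebra.ext ?_ ?_
    · rw [QuadraticAlgebra.re_add, QuadraticAlgebra.re_mul, QuadraticAlgebra.algebraMap_re,
        QuadraticAlgebra.algebraMap_im]
      linear_combination ha
    · rw [QuadraticAlgebra.im_add, QuadraticAlgebra.im_mul, QuadraticAlgebra.algebraMap_re,
        QuadraticAlgebra.algebraMap_im]
      linear_combination hb
  have hlt' : (i : ℕ) < j := hlt
  have hoo : o i < o j := by
    have h1 := ho2 i
    have h2 := ho1 j
    have h3 : (g + 1) * ((i : ℕ) + 1) + g < (g + 1) * ((j : ℕ) + 1) := by nlinarith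
    zify at h3
    push_cast at h1 h2
    linarith
  refine ⟨(o j - o i).toNat, by omega, ?_, ?_⟩
  · have h1 := ho2 j
    have h2 := ho1 i
    have hj : (j : ℕ) ≤ Q := by have := j.2; omega
    have h3 : (g + 1) * ((j : ℕ) + 1) + g ≤ (g + 1) * Q + g + (g + 1) * ((i : ℕ) + 1) := by
      nlinarith
    zify at h3
    push_cast at h1 h2
    have h4 : o j - o i ≤ ((g + 1) * Q + g : ℕ) := by push_cast; linarith
    omega
  · refine quotient_unit (S := S) hr (hu0 i) (hu0 j) hδ (ho3 i) (ho4 i) (ho3 j) ?_ hoo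
    rw [hF1]
    exact ho4 j

end

end H12UBI
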