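import Pool.Agent.Helper12_UBI.Lev

/-!
Extraction of roots of units over a discrete valuation ring.
-/

open Polynomial

namespace H12UBI

open H58UB

section dvr

variable {V : Type*} [CommRing V] [IsDomain V] [IsDiscreteValuationRing V] {g : ℕ} {h r : V[X]}

/-- one step over the residue field -/
theorem step_field {k : Type*} [Field k] {h r : k[X]} {S : Shape g h r} (hr : r ≠ 0)
    {l n : ℕ} (hl : 1 ≤ l) {w δ : CR k h r} (hw : w ≠ 0) (hw0 : Ge (n : ℤ) (e0 S w))
    (hw1 : Ge (-(n : ℤ)) (e1 S w)) {b : LaurentSeries k} (hb : Ge (-(n : ℤ)) b) {ε : k}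
    (hε : ε ≠ 0)
    (hδ0 : Ge ((l * n : ℕ) : ℤ) (e0 S δ - HahnSeries.C ε * (e0 S w ^ (l - 1) * b)))
    (hδ1 : Ge (-((l * n : ℕ) : ℤ)) (e1 S δ)) :
    ∃ s : CR k h r, Fn S n s ∧ Ge (n : ℤ) (b + e0 S s) := by
  obtain ⟨c, hc, hwn, hcc⟩ := U_spec hr hw hw0 hw1
  have hlead : (e0 S w).coeff n ≠ 0 := by
    intro h0
    rw [h0, zero_mul] at hcc
    exact hc hcc.symm
  set a : k := -(ε * c ^ (l - 1))⁻¹ with ha
  have hnn : e0 S w * e1 S w = HahnSeries.C c := by rw [e0_mul_e1, hwn, ex_C]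
  let s : CR k h r := cst h r a * (δ * star w ^ (l - 1))
  have hs0 : e0 S s = HahnSeries.C a * (e0 S δ * e1 S w ^ (l - 1)) := by
    simp only [s]
    rw [map_mul, map_mul, map_pow, e0_cst, e0_star]
  have hs1 : e1 S s = HahnSeries.C a * (e1 S δ * e0 S w ^ (l - 1)) := by
    simp only [s]
    rw [map_mul, map_mul, map_pow, e1_cst, e1_star]
  have hCε : HahnSeries.C ε * (HahnSeries.C a * HahnSeries.C c ^ (l - 1)) =
      (-1 : LaurentSeries k) := by
    rw [← map_pow, ← map_mul, ← map_mul, ha]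
    have : ε * (-(ε * c ^ (l - 1))⁻¹ * c ^ (l - 1)) = -1 := by
      have := pow_ne_zero (l - 1) hc
      field_simp
    rw [this, map_neg, map_one]
  have hkey : Ge (n : ℤ) (b + e0 S s) := by
    have h1 : Ge ((l * n : ℕ) : ℤ) ((b + e0 S s) * e0 S w ^ (l - 1)) := by
      have h2 : HahnSeries.C ε * ((b + e0 S s) * e0 S w ^ (l - 1)) =
          -(e0 S δ - HahnSeries.C ε * (e0 S w ^ (l - 1) * b)) := by
        have h3 : e1 S w ^ (l - 1) * e0 S w ^ (l - 1) = HahnSeries.C c ^ (l - 1) := by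
          rw [← mul_pow, mul_comm, hnn]
        rw [hs0]
        linear_combination (HahnSeries.C ε * HahnSeries.C a * e0 S δ) * h3 + e0 S δ * hCε
      refine ge_of_C_mul hε ?_
      rw [h2]
      exact hδ0.neg
    have h2 : Ge (((l - 1 : ℕ) : ℤ) * n) (e0 S w ^ (l - 1)) := hw0.pow (l - 1)
    have h3 : IsUnit ((e0 S w ^ (l - 1)).coeff (((l - 1 : ℕ) : ℤ) * n)) := by
      rw [ge_coeff_pow hw0]
      exact (IsUnit.mk0 _ hlead).pow _
    refine (ge_of_mul h2 h3 h1).mono ?_
    obtain ⟨l', rfl⟩ : ∃ l', l = l' + 1 := ⟨l - 1, by omega⟩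
    push_cast
    linarith
  refine ⟨s, ⟨?_, ?_⟩, hkey⟩
  · have : e0 S s = (b + e0 S s) - b := by ring
    rw [this]
    exact (hkey.mono (by omega)).sub hb
  · rw [hs1]
    refine ge_C_mul ?_ a
    refine (hδ1.mul (hw0.pow (l - 1))).mono ?_
    obtain ⟨l', rfl⟩ : ∃ l', l = l' + 1 := ⟨l - 1, by omega⟩
    push_cast
    linarith

/-- one step of the extraction of a root -/
theorem step {S : Shape g h r} (hr : r.map (IsLocalRing.residue V) ≠ 0) {π : V} (hπ : Irreducible π)
    {l n t e : ℕ} (hl : l.Prime) {ε : V} (hε : IsUnit ε) (hle : (l : V) = ε * π ^ e)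
    (hte : t + e < l * t) {u : CR V h r} (hu : cmap (IsLocalRing.residue V) h r u ≠ 0)
    (hu0 : Ge ((l * n : ℕ) : ℤ) (e0 S u)) (hu1 : Ge (-((l * n : ℕ) : ℤ)) (e1 S u))
    {w : CR V h r} (hw : Lev π t S n w) : ∃ w', Lev π (t + 1) S n w' := by
  have hV := cr_noZeroDivisors (smap S (IsLocalRing.residue V)) hr
  have ht : t ≠ 0 := by rintro rfl; simp at hte
  obtain ⟨x, b, hxb, hx, hb⟩ := hw.d.split hw.fn.1
  -- expansion of the `l`-th power
  obtain ⟨s₁, hs₁⟩ := add_pow_prime hl x (HahnSeries.C (π ^ t) * b)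
  obtain ⟨m, hm⟩ : ∃ m, l * t = t + e + 1 + m := ⟨l * t - (t + e + 1), by omega⟩
  obtain ⟨t₁, ht₁⟩ : ∃ t₁, t = t₁ + 1 := ⟨t - 1, by omega⟩
  have hlC : (l : LaurentSeries V) = HahnSeries.C ε * HahnSeries.C π ^ e := by
    rw [← map_pow, ← map_mul, ← hle]; simp
  set P : LaurentSeries V := HahnSeries.C π with hP
  have hPt : ∀ i : ℕ, HahnSeries.C (π ^ i) = P ^ i := fun i => by rw [map_pow]
  have hpow : e0 S w ^ l = x ^ l + P ^ (t + e) * (HahnSeries.C ε * (x ^ (l - 1) * b) +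
      P * (P ^ m * b ^ l + HahnSeries.C ε * P ^ t₁ * b ^ 2 * s₁)) := by
    have h2 : (P ^ t) ^ 2 = P ^ (t + t₁ + 1) := by
      rw [← pow_mul]; congr 1; omega
    have h3 : (P ^ t) ^ l = P ^ (t + e + 1 + m) := by
      rw [← pow_mul, mul_comm t l, hm]
    rw [hxb, hs₁, hlC, hPt, mul_pow (P ^ t) b l, mul_pow (P ^ t) b 2, h2, h3]
    ring
  -- comparison with `u`
  have hνC : ∃ ν : V, u.norm = C ν := by
    refine ⟨_, eq_C_of_ge_zero ?_⟩
    rw [← e0_mul_e1 S]
    exact (hu0.mul hu1).mono (by omega)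
  obtain ⟨ν, hν⟩ := hνC
  have hνu : IsUnit ν := by
    by_contra hnu
    have h1 : (IsLocalRing.residue V) ν = 0 := by
      rw [IsLocalRing.residue_eq_zero_iff]
      exact (IsLocalRing.mem_maximalIdeal ν).2 hnu
    refine norm_ne_zero (smap S (IsLocalRing.residue V)) hr hu ?_
    rw [norm_cmap, hν, Polynomial.map_C, h1, map_zero]
  obtain ⟨ν', hν'⟩ := hνu.exists_right_inv
  have huu : u * star u = cst h r ν := by
    rw [← QuadraticAlgebra.algebraMap_norm_eq_mul_star, hν]; rfl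
  have hz1 : Ge 0 (e1 S (w ^ l * star u)) := by
    rw [map_mul, map_pow, e1_star]
    exact ((hw.fn.2.pow l).mul hu0).mono (by push_cast; ring_nf; exact le_rfl)
  have hz0 : D (π ^ (t + e)) 0 (e0 S (w ^ l * star u)) := by
    rw [map_mul, map_pow, e0_star, hpow, add_mul, mul_assoc]
    refine D.add ?_ ?_
    · refine D.of_ge ?_
      exact ((hx.pow l).mul hu1).mono (by push_cast; ring_nf; exact le_rfl)
    · rw [← hPt]
      exact D.C_mul
  set c : V := (e0 S (w ^ l * star u)).coeff 0 with hc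
  have hzz : ∃ δ₀, w ^ l * star u - cst h r c = cst h r (π ^ (t + e)) * δ₀ := by
    refine lemZ (S := S) hr hπ (n := 0) (t + e) _ ?_ ?_
    · rw [neg_zero, map_sub, e1_cst]
      refine hz1.sub ?_
      have := ge_C_mul (n := 0) (s := (1 : LaurentSeries V)) (by
        intro j hj
        rw [HahnSeries.coeff_one, if_neg (by omega)]) c
      simpa using this
    · rw [zero_add]
      intro j hj
      rw [map_sub, e0_cst, HahnSeries.coeff_sub]
      rcases lt_or_eq_of_le (show j ≤ 0 by omega) with h0 | h0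
      · have h3 : (HahnSeries.C c : LaurentSeries V).coeff j = 0 := by
          rw [HahnSeries.C_apply, HahnSeries.coeff_single_of_ne (by omega)]
        rw [h3, sub_zero]
        exact hz0 j h0
      · subst h0
        have h3 : (HahnSeries.C c : LaurentSeries V).coeff 0 = c := by
          rw [HahnSeries.C_apply, HahnSeries.coeff_single_same]
        rw [h3, ← hc, sub_self]
        exact dvd_zero _
  obtain ⟨δ₀, hδ₀⟩ := hzz
  set δ : CR V h r := cst h r ν' * (δ₀ * u) with hδ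
  have hν1 : cst h r ν * cst h r ν' = 1 := by rw [← map_mul, hν', map_one]
  have hwl : w ^ l = cst h r (c * ν') * u + cst h r (π ^ (t + e)) * δ := by
    rw [map_mul, hδ]
    linear_combination (cst h r ν' * u) * hδ₀ - (cst h r ν' * w ^ l) * huu - (w ^ l) * hν1
  have hPne : HahnSeries.C (π ^ (t + e)) = P ^ (t + e) := hPt _
  have hδe0 : Ge ((l * n : ℕ) : ℤ) (e0 S δ - HahnSeries.C ε * (x ^ (l - 1) * b) -
      P * (P ^ m * b ^ l + HahnSeries.C ε * P ^ t₁ * b ^ 2 * s₁)) := by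
    refine ge_of_C_mul (pow_ne_zero (t + e) hπ.ne_zero) ?_
    have h1 := congrArg (e0 S) hwl
    rw [map_pow, hpow, map_add, map_mul (e0 S) (cst h r (c * ν')) u,
      map_mul (e0 S) (cst h r (π ^ (t + e))) δ, e0_cst, e0_cst, hPne] at h1
    have h2 : HahnSeries.C (π ^ (t + e)) * (e0 S δ - HahnSeries.C ε * (x ^ (l - 1) * b) -
      P * (P ^ m * b ^ l + HahnSeries.C ε * P ^ t₁ * b ^ 2 * s₁)) =
        x ^ l - HahnSeries.C (c * ν') * e0 S u := by
      rw [hPne]
      linear_combination (-1 : LaurentSeries V) * h1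
    rw [h2]
    refine Ge.sub ((hx.pow l).mono (by push_cast; exact le_rfl)) (ge_C_mul hu0 _)
  have hδe1 : Ge (-((l * n : ℕ) : ℤ)) (e1 S δ) := by
    refine ge_of_C_mul (pow_ne_zero (t + e) hπ.ne_zero) ?_
    have h1 := congrArg (e1 S) hwl
    rw [map_pow, map_add, map_mul (e1 S) (cst h r (c * ν')) u,
      map_mul (e1 S) (cst h r (π ^ (t + e))) δ, e1_cst, e1_cst] at h1
    have h2 : HahnSeries.C (π ^ (t + e)) * e1 S δ =
        e1 S w ^ l - HahnSeries.C (c * ν') * e1 S u := by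
      linear_combination (-1 : LaurentSeries V) * h1
    rw [h2]
    refine Ge.sub ((hw.fn.2.pow l).mono (by push_cast; ring_nf; exact le_rfl)) (ge_C_mul hu1 _)
  -- reduction
  have hπ0 : (IsLocalRing.residue V) π = 0 := (residue_eq_zero_iff' hπ π).2 dvd_rfl
  have hP0 : lmap (IsLocalRing.residue V) P = 0 := by
    rw [hP]
    ext j
    rw [coeff_lmap, HahnSeries.C_apply, HahnSeries.coeff_single]
    split_ifs
    · rw [hπ0]; rfl
    · rw [map_zero]; rfl
  have hxr : lmap (IsLocalRing.residue V) x = e0 (smap S (IsLocalRing.residue V)) (cmap (IsLocalRing.residue V) h r w) := by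
    rw [← lmap_e0 S, hxb, map_add, map_mul, hPt, map_pow, hP0, zero_pow ht, zero_mul, add_zero]
  have hCr : lmap (IsLocalRing.residue V) (HahnSeries.C ε) = HahnSeries.C ((IsLocalRing.residue V) ε) := by
    ext j
    rw [coeff_lmap, HahnSeries.C_apply, HahnSeries.C_apply, HahnSeries.coeff_single,
      HahnSeries.coeff_single]
    split_ifs
    · rfl
    · rw [map_zero]
  have hw1 : Ge (-(n : ℤ)) (e1 (smap S (IsLocalRing.residue V)) (cmap (IsLocalRing.residue V) h r w)) := by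
    rw [← lmap_e1 S]; exact ge_lmap hw.fn.2 _
  have hw0 : Ge (n : ℤ) (e0 (smap S (IsLocalRing.residue V)) (cmap (IsLocalRing.residue V) h r w)) := by
    rw [← hxr]; exact ge_lmap hx _
  obtain ⟨s', hs', hs''⟩ := step_field (S := smap S (IsLocalRing.residue V)) (δ := cmap (IsLocalRing.residue V) h r δ) hr hl.one_lt.le hw.ne
    hw0 hw1 (ge_lmap hb (IsLocalRing.residue V)) (hε.map ((IsLocalRing.residue V))).ne_zero (by
      rw [← hxr, ← lmap_e0 S, ← hCr, ← map_pow, ← map_mul, ← map_mul, ← map_sub]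
      have h1 := ge_lmap hδe0 (IsLocalRing.residue V)
      rw [map_sub, map_mul _ P, hP0, zero_mul, sub_zero] at h1
      exact h1) (by
      rw [← lmap_e1 S]; exact ge_lmap hδe1 _)
  obtain ⟨s, hs, hss⟩ := Fn.lift (S := S) (IsLocalRing.residue V) IsLocalRing.residue_surjective hs'
  refine ⟨w + cst h r (π ^ t) * s, hw.fn.add (hs.cst_mul _), ?_, ?_⟩
  · rw [map_add, map_mul, e0_cst, hxb]
    have h1 : x + HahnSeries.C (π ^ t) * b + HahnSeries.C (π ^ t) * e0 S s =
        x + HahnSeries.C (π ^ t) * (b + e0 S s) := by ring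
    rw [h1]
    refine (D.of_ge hx).add ?_
    intro j hj
    rw [coeff_C_mul', pow_succ]
    refine mul_dvd_mul_left _ ?_
    rw [← residue_eq_zero_iff' hπ, ← coeff_lmap, map_add, lmap_e0, hss]
    exact hs'' j hj
  · have h1 : cmap (IsLocalRing.residue V) h r (w + cst h r (π ^ t) * s) = cmap (IsLocalRing.residue V) h r w := by
      rw [map_add, map_mul, cmap_cst, map_pow, hπ0, zero_pow ht, map_zero, zero_mul, add_zero]
    rw [h1]
    exact hw.ne

theorem steps {S : Shape g h r} (hr : r.map (IsLocalRing.residue V) ≠ 0) {π : V} (hπ : Irreducible π)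
    {l n t e : ℕ} (hl : l.Prime) {ε : V} (hε : IsUnit ε) (hle : (l : V) = ε * π ^ e)
    (hte : t + e < l * t) {u : CR V h r} (hu : cmap (IsLocalRing.residue V) h r u ≠ 0)
    (hu0 : Ge ((l * n : ℕ) : ℤ) (e0 S u)) (hu1 : Ge (-((l * n : ℕ) : ℤ)) (e1 S u))
    {w : CR V h r} (hw : Lev π t S n w) (t' : ℕ) : ∃ w', Lev π t' S n w' := by
  have h1 : ∀ i : ℕ, ∃ w', Lev π (t + i) S n w' := by
    intro i
    induction i with
    | zero => exact ⟨w, hw⟩
    | succ i ih =>
      obtain ⟨w', hw'⟩ := ih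
      refine step hr hπ hl hε hle ?_ hu hu0 hu1 hw'
      have h2 : l * (t + i) = l * t + l * i := by ring
      have h3 : 1 * i ≤ l * i := Nat.mul_le_mul_right i hl.one_lt.le
      have h4 : t + i + e < l * (t + i) := by rw [h2]; linarith
      exact h4
  obtain ⟨w', hw'⟩ := h1 t'
  exact ⟨w', hw'.mono (by omega)⟩

end dvr

end H12UBI
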