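import Pool.Agent.Helper58_UB.Basic

/-!
The expansion `y0` of `y` at the point at infinity at which `y` vanishes, over any base ring, and
the two ring homomorphisms `e0`, `e1` from the coordinate ring to Laurent series.
-/

open Polynomial

namespace H12UBI

open H58UB

section

variable {A : Type*} [CommRing A]

theorem ps_isAdicComplete : IsAdicComplete (Ideal.span {(PowerSeries.X : PowerSeries A)})
    (PowerSeries A) := inferInstance

/-- existence of the small root of `Y^2 + H Y = R` in power series -/
theorem exists_ps (H R : PowerSeries A) (hH : PowerSeries.constantCoeff H = 1)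
    (hR : PowerSeries.constantCoeff R = 0) :
    ∃ Y : PowerSeries A, PowerSeries.constantCoeff Y = 0 ∧ Y ^ 2 + H * Y = R := by
  have inst : HenselianRing (PowerSeries A) (Ideal.span {(PowerSeries.X : PowerSeries A)}) :=
    inferInstance
  let F : Polynomial (PowerSeries A) := X ^ 2 + (C H * X - C R)
  have hF : F.Monic := by
    refine monic_X_pow_add ?_
    refine lt_of_le_of_lt (degree_sub_le _ _) ?_
    rw [max_lt_iff]
    constructor
    · exact lt_of_le_of_lt (degree_C_mul_X_le H) (by norm_num)
    · exact lt_of_le_of_lt degree_C_le (by norm_num)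
  obtain ⟨a, ha, ha0⟩ := inst.is_henselian F hF 0 (by
      simp only [F, eval_add, eval_sub, eval_pow, eval_X, eval_mul, eval_C]
      rw [Ideal.mem_span_singleton, PowerSeries.X_dvd_iff]
      simp [hR]) (by
      have hu : IsUnit (F.derivative.eval 0) := by
        simp only [F]
        rw [PowerSeries.isUnit_iff_constantCoeff]
        simp [hH]
      exact hu.map _)
  refine ⟨a, ?_, ?_⟩
  · rw [sub_zero, Ideal.mem_span_singleton, PowerSeries.X_dvd_iff] at ha0
    exact ha0
  · have : F.eval a = 0 := ha
    simp only [F, eval_add, eval_sub, eval_pow, eval_X, eval_mul, eval_C] at this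
    linear_combination this

variable {g : ℕ} {h r : A[X]}

theorem exists_y0 (S : Shape g h r) :
    ∃ y : LaurentSeries A, Ge 1 y ∧ y ^ 2 + ex A h * y = ex A r := by
  have hH : PowerSeries.constantCoeff ((reflect (g + 1) h : A[X]) : PowerSeries A) = 1 := by
    rw [← PowerSeries.coeff_zero_eq_constantCoeff_apply, Polynomial.coeff_coe, coeff_reflect,
      revAt_zero]
    have := S.monic
    rw [Monic, leadingCoeff, S.deg] at this
    exact this
  have hR0 : (PowerSeries.X : PowerSeries A) ^ (g + 2) ∣
      ((reflect (2 * g + 2) r : A[X]) : PowerSeries A) := by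
    rw [PowerSeries.X_pow_dvd_iff]
    intro m hm
    rw [Polynomial.coeff_coe, coeff_reflect, revAt_le (by omega)]
    exact coeff_eq_zero_of_natDegree_lt (by have := S.degr; omega)
  have hR : PowerSeries.constantCoeff ((reflect (2 * g + 2) r : A[X]) : PowerSeries A) = 0 := by
    rw [PowerSeries.X_pow_dvd_iff] at hR0
    rw [← PowerSeries.coeff_zero_eq_constantCoeff_apply]
    exact hR0 0 (by omega)
  obtain ⟨Y, hY0, hY⟩ := exists_ps _ _ hH hR
  have hunit : IsUnit (Y + ((reflect (g + 1) h : A[X]) : PowerSeries A)) := by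
    rw [PowerSeries.isUnit_iff_constantCoeff]
    rw [map_add, hY0, hH]
    simp
  obtain ⟨U, hU⟩ := hunit.exists_right_inv
  obtain ⟨Z, hZ⟩ := hR0
  have hYd : Y = PowerSeries.X ^ (g + 2) * (Z * U) := by
    have h1 : Y * (Y + ((reflect (g + 1) h : A[X]) : PowerSeries A)) =
        PowerSeries.X ^ (g + 2) * Z := by
      rw [← hZ, ← hY]; ring
    calc Y = Y * (Y + ((reflect (g + 1) h : A[X]) : PowerSeries A)) * U := by
          rw [mul_assoc, hU, mul_one]
      _ = _ := by rw [h1, mul_assoc]
  refine ⟨HahnSeries.single (-((g + 1 : ℕ) : ℤ)) 1 * HahnSeries.ofPowerSeries ℤ A Y, ?_, ?_⟩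
  · rw [hYd, map_mul, map_pow, HahnSeries.ofPowerSeries_X, HahnSeries.single_pow, ← mul_assoc,
      HahnSeries.single_mul_single]
    rw [ge_iff]
    refine ⟨Z * U, ?_⟩
    congr 1
    simp
  · have e1 : ex A h = HahnSeries.single (-((g + 1 : ℕ) : ℤ)) 1 *
        HahnSeries.ofPowerSeries ℤ A ((reflect (g + 1) h : A[X]) : PowerSeries A) := by
      have := single_mul_ex h (g + 1) (le_of_eq S.deg)
      have h2 : HahnSeries.ofPowerSeries ℤ A ((reflect (g + 1) h : A[X]) : PowerSeries A) =
          HahnSeries.single ((g + 1 : ℕ) : ℤ) (1 : A) * ex A h := this.symm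
      rw [h2, ← mul_assoc, HahnSeries.single_mul_single]
      simp
    have e2 : ex A r = HahnSeries.single (-((2 * g + 2 : ℕ) : ℤ)) 1 *
        HahnSeries.ofPowerSeries ℤ A ((reflect (2 * g + 2) r : A[X]) : PowerSeries A) := by
      have := single_mul_ex r (2 * g + 2) (by have := S.degr; omega)
      have h2 : HahnSeries.ofPowerSeries ℤ A ((reflect (2 * g + 2) r : A[X]) : PowerSeries A) =
          HahnSeries.single ((2 * g + 2 : ℕ) : ℤ) (1 : A) * ex A r := this.symm
      rw [h2, ← mul_assoc, HahnSeries.single_mul_single]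
      simp
    rw [e1, e2, ← hY, map_add, map_mul, map_pow, mul_pow, HahnSeries.single_pow]
    rw [mul_mul_mul_comm, HahnSeries.single_mul_single, one_mul]
    have : (2 : ℕ) • (-((g + 1 : ℕ) : ℤ)) = -((2 * g + 2 : ℕ) : ℤ) := by
      rw [two_nsmul]; push_cast; ring
    rw [this, one_pow]
    have : -((g + 1 : ℕ) : ℤ) + -((g + 1 : ℕ) : ℤ) = -((2 * g + 2 : ℕ) : ℤ) := by
      push_cast; ring
    rw [this]
    ring

theorem coeff_single_mul_ps (n : ℤ) (p : PowerSeries A) :
    (HahnSeries.single n (1 : A) * HahnSeries.ofPowerSeries ℤ A p).coeff n =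
      PowerSeries.constantCoeff p := by
  rw [HahnSeries.coeff_single_mul, one_mul, sub_self]
  have := LaurentSeries.coeff_coe_powerSeries p 0
  simpa using this

theorem isUnit_of_lead {n : ℤ} {s : LaurentSeries A} (hs : Ge n s) (hu : IsUnit (s.coeff n)) :
    IsUnit s := by
  obtain ⟨p, rfl⟩ := ge_iff.1 hs
  rw [coeff_single_mul_ps] at hu
  have h1 : IsUnit p := PowerSeries.isUnit_iff_constantCoeff.2 hu
  have h2 : IsUnit (HahnSeries.single n (1 : A)) := by
    refine IsUnit.of_mul_eq_one (HahnSeries.single (-n) 1) ?_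
    rw [HahnSeries.single_mul_single]
    simp
  exact h2.mul (h1.map _)

theorem ge_ex {p : A[X]} {n : ℕ} (hp : p.natDegree ≤ n) : Ge (-(n : ℤ)) (ex A p) := by
  intro j hj
  exact coeff_ex_of_lt p hp hj

theorem unique_y0 (S : Shape g h r) {y y' : LaurentSeries A} (hy : Ge 1 y) (hy' : Ge 1 y')
    (e : y ^ 2 + ex A h * y = ex A r) (e' : y' ^ 2 + ex A h * y' = ex A r) : y = y' := by
  have h1 : (y - y') * (y + y' + ex A h) = 0 := by linear_combination e - e'
  have h2 : IsUnit (y + y' + ex A h) := by
    refine isUnit_of_lead (n := -((g + 1 : ℕ) : ℤ)) ?_ ?_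
    · exact ((hy.mono (by omega)).add (hy'.mono (by omega))).add (ge_ex (le_of_eq S.deg))
    · rw [HahnSeries.coeff_add, HahnSeries.coeff_add, hy _ (by omega), hy' _ (by omega),
        coeff_ex_neg, ← S.deg, coeff_natDegree, S.monic]
      simp
  have h3 : y - y' = 0 := (IsUnit.mul_left_eq_zero h2).1 h1
  exact sub_eq_zero.1 h3

/-- the expansion of `y` at the point at infinity where it vanishes -/
noncomputable def y0 (S : Shape g h r) : LaurentSeries A := Classical.choose (exists_y0 S)

theorem ge_y0 (S : Shape g h r) : Ge 1 (y0 S) := (Classical.choose_spec (exists_y0 S)).1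

theorem y0_eq (S : Shape g h r) : y0 S ^ 2 + ex A h * y0 S = ex A r :=
  (Classical.choose_spec (exists_y0 S)).2

/-- evaluation of the coordinate ring at a root of `y^2 + h y = r` -/
noncomputable def evr (y : LaurentSeries A) (hy : y ^ 2 + ex A h * y = ex A r) :
    CR A h r →+* LaurentSeries A where
  toFun u := ex A u.re + ex A u.im * y
  map_one' := by
    change ex A 1 + ex A 0 * y = 1
    simp
  map_zero' := by
    change ex A 0 + ex A 0 * y = 0
    simp
  map_add' a b := by
    rw [QuadraticAlgebra.re_add, QuadraticAlgebra.im_add, map_add, map_add]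
    ring
  map_mul' a b := by
    rw [QuadraticAlgebra.re_mul, QuadraticAlgebra.im_mul]
    simp only [map_add, map_mul, map_neg]
    linear_combination (- ex A a.im * ex A b.im) * hy

/-- expansion at the point at infinity where `y` vanishes -/
noncomputable def e0 (S : Shape g h r) : CR A h r →+* LaurentSeries A := evr (y0 S) (y0_eq S)

theorem y1_eq (S : Shape g h r) :
    (-ex A h - y0 S) ^ 2 + ex A h * (-ex A h - y0 S) = ex A r := by
  linear_combination y0_eq S

/-- expansion at the other point at infinity -/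
noncomputable def e1 (S : Shape g h r) : CR A h r →+* LaurentSeries A :=
  evr (-ex A h - y0 S) (y1_eq S)

theorem e0_apply (S : Shape g h r) (u : CR A h r) :
    e0 S u = ex A u.re + ex A u.im * y0 S := rfl

theorem e1_apply (S : Shape g h r) (u : CR A h r) :
    e1 S u = ex A u.re + ex A u.im * (-ex A h - y0 S) := rfl

theorem e0_star (S : Shape g h r) (u : CR A h r) : e0 S (star u) = e1 S u := by
  rw [e0_apply, e1_apply, QuadraticAlgebra.re_star, QuadraticAlgebra.im_star]
  simp only [map_add, map_mul, map_neg]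
  ring

theorem e1_star (S : Shape g h r) (u : CR A h r) : e1 S (star u) = e0 S u := by
  rw [← e0_star, star_star]

theorem e0_mul_e1 (S : Shape g h r) (u : CR A h r) : e0 S u * e1 S u = ex A u.norm := by
  rw [e0_apply, e1_apply, QuadraticAlgebra.norm_def]
  simp only [map_add, map_sub, map_mul, map_neg]
  linear_combination (- ex A u.im * ex A u.im) * y0_eq S

theorem e1_sub_e0 (S : Shape g h r) (u : CR A h r) :
    e1 S u - e0 S u = ex A u.im * (-ex A h - 2 * y0 S) := by
  rw [e0_apply, e1_apply]; ring

variable {B : Type*} [CommRing B]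

/-- functoriality of the coordinate ring -/
noncomputable def cmap (φ : A →+* B) (h r : A[X]) : CR A h r →+* CR B (h.map φ) (r.map φ) where
  toFun u := ⟨u.re.map φ, u.im.map φ⟩
  map_one' := by
    ext1
    · change Polynomial.map φ 1 = 1
      exact Polynomial.map_one φ
    · change Polynomial.map φ 0 = 0
      exact Polynomial.map_zero φ
  map_zero' := by ext <;> simp
  map_add' a b := by ext <;> simp
  map_mul' a b := by
    ext1
    · simp only [QuadraticAlgebra.re_mul, Polynomial.map_add, Polynomial.map_mul]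
    · simp only [QuadraticAlgebra.im_mul, Polynomial.map_add, Polynomial.map_mul,
        Polynomial.map_neg]

@[simp] theorem cmap_re (φ : A →+* B) (u : CR A h r) : (cmap φ h r u).re = u.re.map φ := rfl
@[simp] theorem cmap_im (φ : A →+* B) (u : CR A h r) : (cmap φ h r u).im = u.im.map φ := rfl

theorem cmap_star (φ : A →+* B) (u : CR A h r) : cmap φ h r (star u) = star (cmap φ h r u) := by
  refine QuadraticAlgebra.ext ?_ ?_
  · rw [cmap_re, QuadraticAlgebra.re_star, QuadraticAlgebra.re_star, cmap_re, cmap_im]
    simp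
  · rw [cmap_im, QuadraticAlgebra.im_star, QuadraticAlgebra.im_star, cmap_im]
    simp

theorem norm_cmap (φ : A →+* B) (u : CR A h r) : (cmap φ h r u).norm = u.norm.map φ := by
  rw [QuadraticAlgebra.norm_def, QuadraticAlgebra.norm_def]
  simp

theorem cmap_injective (φ : A →+* B) (hφ : Function.Injective φ) :
    Function.Injective (cmap φ h r) := by
  intro a b hab
  have h1 := congrArg QuadraticAlgebra.re hab
  have h2 := congrArg QuadraticAlgebra.im hab
  rw [cmap_re, cmap_re] at h1
  rw [cmap_im, cmap_im] at h2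
  exact QuadraticAlgebra.ext (Polynomial.map_injective φ hφ h1) (Polynomial.map_injective φ hφ h2)

theorem smap [Nontrivial B] (S : Shape g h r) (φ : A →+* B) :
    Shape g (h.map φ) (r.map φ) where
  monic := S.monic.map φ
  deg := by rw [S.monic.natDegree_map]; exact S.deg
  degr := le_trans natDegree_map_le S.degr

theorem ge_lmap {n : ℤ} {s : LaurentSeries A} (hs : Ge n s) (φ : A →+* B) : Ge n (lmap φ s) := by
  intro j hj
  rw [coeff_lmap, hs j hj, map_zero]

theorem lmap_y0 [Nontrivial B] (S : Shape g h r) (φ : A →+* B) :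
    lmap φ (y0 S) = y0 (smap S φ) := by
  refine unique_y0 (smap S φ) (ge_lmap (ge_y0 S) φ) (ge_y0 _) ?_ (y0_eq _)
  rw [← lmap_ex, ← lmap_ex, ← map_pow, ← map_mul, ← map_add, y0_eq]

theorem lmap_e0 [Nontrivial B] (S : Shape g h r) (φ : A →+* B) (u : CR A h r) :
    lmap φ (e0 S u) = e0 (smap S φ) (cmap φ h r u) := by
  rw [e0_apply, e0_apply, map_add, map_mul, lmap_ex, lmap_ex, lmap_y0, cmap_re, cmap_im]

theorem lmap_e1 [Nontrivial B] (S : Shape g h r) (φ : A →+* B) (u : CR A h r) :
    lmap φ (e1 S u) = e1 (smap S φ) (cmap φ h r u) := by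
  rw [← e0_star, ← e0_star, lmap_e0, cmap_star]

end

end H12UBI
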